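import Pool.Agent.H56.SRG.Build

/-!
The attack lemma: if SP owns a copy of `G - t` (`t` of degree two, attached to `c`, `d`), FP has no
immediate win and no dangerous valid pair at `d`, then SP draws by the infinite sequence of threats
`c z`, `d z`.
-/

namespace Pool.H56.SRG

variable {V : Type} {G : SimpleGraph V}

/-- FP (owning `A`) cannot win with his next move. -/
def NoWin (G : SimpleGraph V) (A S : Finset (Sym2 ℕ)) : Prop :=
  ∀ g : Sym2 ℕ, ¬ g.IsDiag → g ∉ A → g ∉ S → ¬ HasCopy G (↑(insert g A) : Set (Sym2 ℕ))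

/-- `A` contains a copy of `G - t`, where `t` is a vertex with exactly the two neighbours `u`, `v`,
placed at `p` and `q`. -/
def ValidPair (G : SimpleGraph V) (A : Finset (Sym2 ℕ)) (p q : ℕ) : Prop :=
  ∃ t u v : V, u ≠ v ∧ (∀ w, G.Adj t w ↔ w = u ∨ w = v) ∧
    ∃ f : V → ℕ, Set.InjOn f {t}ᶜ ∧
      (∀ w w', w ≠ t → w' ≠ t → G.Adj w w' → s(f w, f w') ∈ A) ∧ f u = p ∧ f v = q

theorem ValidPair.symm {A : Finset (Sym2 ℕ)} {p q : ℕ} (h : ValidPair G A p q) :
    ValidPair G A q p := by
  obtain ⟨t, u, v, huv, ht, f, hf, hA, hp, hq⟩ := h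
  exact ⟨t, v, u, huv.symm, fun w => (ht w).trans or_comm, f, hf, hA, hq, hp⟩

/-- Every vertex of `G` has at least two neighbours, and two vertices of degree two are never
adjacent. -/
structure Nice (G : SimpleGraph V) : Prop where
  two : ∀ t : V, ∃ u v, u ≠ v ∧ G.Adj t u ∧ G.Adj t v
  indep : ∀ t u : V, G.Adj t u → (∃ u1 u2, ∀ w, G.Adj t w → w = u1 ∨ w = u2) →
    ∃ w1 w2 w3, w1 ≠ w2 ∧ w1 ≠ w3 ∧ w2 ≠ w3 ∧ G.Adj u w1 ∧ G.Adj u w2 ∧ G.Adj u w3

/-- SP owns `S` and threatens to complete a copy by `c z`, `d z` for every vertex `z` outside. -/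
def Fork (G : SimpleGraph V) (S : Finset (Sym2 ℕ)) (c d : ℕ) : Prop :=
  ∀ z : ℕ, z ≠ c → z ≠ d → (∀ e ∈ S, z ∉ e) →
    HasCopy G (↑(insert s(c, z) (insert s(d, z) S)) : Set (Sym2 ℕ))

theorem Fork.symm {S : Finset (Sym2 ℕ)} {c d : ℕ} (h : Fork G S c d) : Fork G S d c := by
  intro z h1 h2 h3
  have := h z h2 h1 h3
  rwa [Finset.insert_comm] at this

theorem not_hasCopy_of_noWin {A S : Finset (Sym2 ℕ)} (h : NoWin G A S) :
    ¬ HasCopy G (↑A : Set (Sym2 ℕ)) := by
  intro hc
  obtain ⟨g, hg1, hg2⟩ := exists_fresh ((A ∪ S).toList)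
  rw [Finset.mem_toList, Finset.mem_union] at hg2
  push Not at hg2
  exact h g hg1 hg2.1 hg2.2 (hc.mono (by intro e he; exact Finset.mem_insert_of_mem he))

/-- The FP graph during the attack. -/
theorem attack_noWin (hG : Nice G) {A S : Finset (Sym2 ℕ)} {c d : ℕ} 
    (hno : NoWin G A S) (hpair : ∀ q, ValidPair G A d q → q = c)
    (Z : Finset ℕ) (hZA : ∀ z ∈ Z, ∀ e ∈ A, z ∉ e) (hZd : d ∉ Z) 
    (m : Sym2 ℕ) (hm : ¬ m.IsDiag) (hmF : m ∉ A ∪ Z.image (fun z => s(d, z)))
    (hmS : m ∉ S ∪ Z.image (fun z => s(c, z))) :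
    ¬ HasCopy G (↑(insert m (A ∪ Z.image (fun z => s(d, z)))) : Set (Sym2 ℕ)) := by
  classical
  rintro ⟨f, hf, hE⟩
  have hE' : ∀ u v, G.Adj u v → s(f u, f v) = m ∨ s(f u, f v) ∈ A ∨ ∃ z ∈ Z, s(f u, f v) = s(d, z) := by
    intro u v huv
    have := hE u v huv
    rw [Finset.mem_coe, Finset.mem_insert, Finset.mem_union, Finset.mem_image] at this
    rcases this with h | h | ⟨z, hz, h⟩
    · exact Or.inl h
    · exact Or.inr (Or.inl h)
    · exact Or.inr (Or.inr ⟨z, hz, h.symm⟩)
  have hnoA := not_hasCopy_of_noWin hno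
  -- the neighbours of a vertex mapped into `Z`
  have hnb : ∀ t u, G.Adj t u → f t ∈ Z → s(f t, f u) = m ∨ f u = d := by
    intro t u htu htZ
    rcases hE' t u htu with h | h | ⟨z, hz, h⟩
    · exact Or.inl h
    · exact absurd (Sym2.mem_mk_left _ _) (hZA _ htZ _ h)
    · right
      rcases Sym2.eq_iff.mp h with ⟨h1, h2⟩ | ⟨h1, h2⟩
      · exact absurd (h1 ▸ htZ) hZd
      · exact h2
  by_cases hmZ : ∃ z ∈ Z, z ∈ m
  · obtain ⟨z, hz, hzm⟩ := hmZ
    obtain ⟨w, rfl⟩ := hzm
    -- m = s(z, w)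
    have hzw : z ≠ w := by
      intro h
      apply hm
      rw [Sym2.mk_isDiag_iff]
      exact h
    have hwd : w ≠ d := by
      rintro rfl
      apply hmF
      rw [Finset.mem_union, Finset.mem_image]
      exact Or.inr ⟨z, hz, Sym2.eq_swap⟩
    have hwc : w ≠ c := by
      rintro rfl
      apply hmS
      rw [Finset.mem_union, Finset.mem_image]
      exact Or.inr ⟨z, hz, Sym2.eq_swap⟩
    -- some vertex must be mapped into Z
    by_cases hit : ∃ t, f t ∈ Z
    · obtain ⟨t, ht⟩ := hit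
      -- f t has two neighbours, so it is an endpoint of m
      obtain ⟨u, v, huv, htu, htv⟩ := hG.two t
      have hends : (f t = z ∨ f t = w) := by
        rcases hnb t u htu ht with h | h
        · rcases Sym2.eq_iff.mp h with ⟨h1, h2⟩ | ⟨h1, h2⟩
          · exact Or.inl h1
          · exact Or.inr h1
        · rcases hnb t v htv ht with h' | h'
          · rcases Sym2.eq_iff.mp h' with ⟨h1, h2⟩ | ⟨h1, h2⟩
            · exact Or.inl h1
            · exact Or.inr h1
          · exact absurd (hf (h.trans h'.symm)) huv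
      -- rename: `f t = z'`, m = s(z', w')
      obtain ⟨z', w', hz', hm', hz'w', hft⟩ : ∃ z' w', z' ∈ Z ∧ s(z, w) = s(z', w') ∧ z' ≠ w' ∧ f t = z' := by
        rcases hends with h | h
        · exact ⟨z, w, hz, rfl, hzw, h⟩
        · exact ⟨w, z, h ▸ ht, Sym2.eq_swap, hzw.symm, h⟩
      have hw'd : w' ≠ d := by
        rintro rfl
        apply hmF
        rw [hm', Finset.mem_union, Finset.mem_image]
        exact Or.inr ⟨z', hz', Sym2.eq_swap⟩
      have hw'c : w' ≠ c := by
        rintro rfl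
        apply hmS
        rw [hm', Finset.mem_union, Finset.mem_image]
        exact Or.inr ⟨z', hz', Sym2.eq_swap⟩
      have hnb2 : ∀ x, G.Adj t x → f x = w' ∨ f x = d := by
        intro x hx
        rcases hnb t x hx ht with h | h
        · left
          rw [hm', hft] at h
          rcases Sym2.eq_iff.mp h with ⟨h1, h2⟩ | ⟨h1, h2⟩
          · exact h2
          · exact absurd h1 hz'w'
        · exact Or.inr h
      -- the neighbours u, v of t are mapped to w', d in some order
      obtain ⟨u', v', hu'v', htu', htv', hfu', hfv'⟩ : ∃ u' v', u' ≠ v' ∧ G.Adj t u' ∧ G.Adj t v' ∧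
          f u' = d ∧ f v' = w' := by
        rcases hnb2 u htu with h1 | h1
        · rcases hnb2 v htv with h2 | h2
          · exact absurd (hf (h1.trans h2.symm)) huv
          · exact ⟨v, u, huv.symm, htv, htu, h2, h1⟩
        · rcases hnb2 v htv with h2 | h2
          · exact ⟨u, v, huv, htu, htv, h1, h2⟩
          · exact absurd (hf (h1.trans h2.symm)) huv
      have hN : ∀ x, G.Adj t x ↔ x = u' ∨ x = v' := by
        intro x
        constructor
        · intro hx
          rcases hnb2 x hx with h | h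
          · exact Or.inr (hf (h.trans hfv'.symm))
          · exact Or.inl (hf (h.trans hfu'.symm))
        · rintro (rfl | rfl)
          · exact htu'
          · exact htv'
      -- v' has at least three neighbours, hence is not in Z
      have hv'Z : f v' ∉ Z := by
        intro hv'
        obtain ⟨w1, w2, w3, h12, h13, h23, ha1, ha2, ha3⟩ :=
          hG.indep t v' htv' ⟨u', v', fun w hw => (hN w).mp hw⟩
        have key : ∀ x, G.Adj v' x → x = t ∨ f x = d := by
          intro x hx
          rcases hnb v' x hx hv' with h | h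
          · left
            rw [hm', hfv'] at h
            rcases Sym2.eq_iff.mp h with ⟨h1, h2⟩ | ⟨h1, h2⟩
            · exact absurd h1.symm hz'w'
            · exact hf (h2.trans hft.symm)
          · exact Or.inr h
        rcases key w1 ha1 with h1 | h1 <;> rcases key w2 ha2 with h2 | h2 <;>
          rcases key w3 ha3 with h3 | h3
        · exact h12 (h1.trans h2.symm)
        · exact h12 (h1.trans h2.symm)
        · exact h13 (h1.trans h3.symm)
        · exact h23 (hf (h2.trans h3.symm))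
        · exact h23 (h2.trans h3.symm)
        · exact h13 (hf (h1.trans h3.symm))
        · exact h12 (hf (h1.trans h2.symm))
        · exact h12 (hf (h1.trans h2.symm))
      -- no other vertex is mapped into Z
      have honly : ∀ x, f x ∈ Z → x = t := by
        intro x hx
        by_contra hxt
        obtain ⟨y1, y2, hy12, hxy1, hxy2⟩ := hG.two x
        have hx1 : ∀ y, G.Adj x y → f y = d := by
          intro y hy
          rcases hnb x y hy hx with h | h
          · exfalso
            rw [hm'] at h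
            rcases Sym2.eq_iff.mp h with ⟨h1, h2⟩ | ⟨h1, h2⟩
            · exact hxt (hf (h1.trans hft.symm))
            · exact hv'Z (by rw [hfv', ← h1]; exact hx)
          · exact h
        exact hy12 (hf ((hx1 y1 hxy1).trans (hx1 y2 hxy2).symm))
      have hval : ValidPair G A d w' := by
        refine ⟨t, u', v', hu'v', hN, f, hf.injOn, ?_, hfu', hfv'⟩
        intro x y hx hy hxy
        rcases hE' x y hxy with h | h | ⟨z'', hz'', h⟩
        · exfalso
          rw [hm'] at h
          rcases Sym2.eq_iff.mp h with ⟨h1, h2⟩ | ⟨h1, h2⟩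
          · exact hx (hf (h1.trans hft.symm))
          · exact hy (hf (h2.trans hft.symm))
        · exact h
        · exfalso
          rcases Sym2.eq_iff.mp h with ⟨h1, h2⟩ | ⟨h1, h2⟩
          · exact hy (honly y (h2 ▸ hz''))
          · exact hx (honly x (h1 ▸ hz''))
      exact hw'c (hpair w' hval)
    · push Not at hit
      apply hnoA
      refine ⟨f, hf, ?_⟩
      intro u v huv
      rcases hE' u v huv with h | h | ⟨z'', hz'', h⟩
      · exfalso
        rcases Sym2.eq_iff.mp h with ⟨h1, h2⟩ | ⟨h1, h2⟩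
        · exact hit u (h1 ▸ hz)
        · exact hit v (h2 ▸ hz)
      · exact h
      · exfalso
        rcases Sym2.eq_iff.mp h with ⟨h1, h2⟩ | ⟨h1, h2⟩
        · exact hit v (h2 ▸ hz'')
        · exact hit u (h1 ▸ hz'')
  · push Not at hmZ
    -- no vertex is mapped into Z
    have hit : ∀ t, f t ∉ Z := by
      intro t ht
      obtain ⟨u, v, huv, htu, htv⟩ := hG.two t
      have h1 : ∀ x, G.Adj t x → f x = d := by
        intro x hx
        rcases hnb t x hx ht with h | h
        · exact absurd (h ▸ Sym2.mem_mk_left _ _) (hmZ _ ht)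
        · exact h
      exact huv (hf ((h1 u htu).trans (h1 v htv).symm))
    have hcopy : HasCopy G (↑(insert m A) : Set (Sym2 ℕ)) := by
      refine ⟨f, hf, ?_⟩
      intro u v huv
      rw [Finset.mem_coe, Finset.mem_insert]
      rcases hE' u v huv with h | h | ⟨z'', hz'', h⟩
      · exact Or.inl h
      · exact Or.inr h
      · exfalso
        rcases Sym2.eq_iff.mp h with ⟨h1, h2⟩ | ⟨h1, h2⟩
        · exact hit v (h2 ▸ hz'')
        · exact hit u (h1 ▸ hz'')
    exact hno m hm (fun h => hmF (Finset.mem_union_left _ h)) (fun h => hmS (Finset.mem_union_left _ h)) hcopy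

/-- The attack lemma (SP to move). -/
theorem attack (hG : Nice G) {A S : Finset (Sym2 ℕ)} {c d : ℕ} (hcd : c ≠ d)
    (hdis : Disjoint A S) (hfork : Fork G S c d) 
    (hno : NoWin G A S) (hpair : ∀ q, ValidPair G A d q → q = c) :
    ∃ s : Sym2 ℕ, ¬ s.IsDiag ∧ s ∉ A ∧ s ∉ S ∧ Safe G A (insert s S) := by
  classical
  -- the family of attack positions
  let P : Finset (Sym2 ℕ) → Finset (Sym2 ℕ) → Prop := fun F' S' =>
    ∃ (Z : Finset ℕ) (z0 : ℕ), (∀ z ∈ Z, ∀ e ∈ A, z ∉ e) ∧ (∀ z ∈ Z, ∀ e ∈ S, z ∉ e) ∧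
      c ∉ Z ∧ d ∉ Z ∧ z0 ∉ Z ∧ z0 ≠ c ∧ z0 ≠ d ∧ (∀ e ∈ A, z0 ∉ e) ∧ (∀ e ∈ S, z0 ∉ e) ∧
      F' = A ∪ Z.image (fun z => s(d, z)) ∧ S' = insert s(c, z0) (S ∪ Z.image (fun z => s(c, z)))
  have hclosed : ∀ F' S', P F' S' → ∀ e : Sym2 ℕ, ¬ e.IsDiag → e ∉ F' → e ∉ S' →
      ¬ HasCopy G (↑(insert e F') : Set (Sym2 ℕ)) ∧
      ∃ s : Sym2 ℕ, ¬ s.IsDiag ∧ s ∉ insert e F' ∧ s ∉ S' ∧
        (HasCopy G (↑(insert s S') : Set (Sym2 ℕ)) ∨ P (insert e F') (insert s S') ∨
          Safe G (insert e F') (insert s S')) := by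
    rintro F' S' ⟨Z, z0, hZA, hZS, hcZ, hdZ, hz0Z, hz0c, hz0d, hz0A, hz0S, rfl, rfl⟩ e he heF heS
    have heS' : e ∉ S ∪ Z.image (fun z => s(c, z)) := fun h => heS (Finset.mem_insert_of_mem h)
    refine ⟨attack_noWin hG hno hpair Z hZA hdZ e he heF heS', ?_⟩
    have hd0S : s(d, z0) ∉ insert s(c, z0) (S ∪ Z.image (fun z => s(c, z))) := by
      rw [Finset.mem_insert, Finset.mem_union, Finset.mem_image]
      rintro (h | h | ⟨z, hz, h⟩)
      · rcases Sym2.eq_iff.mp h with ⟨h1, _⟩ | ⟨h1, _⟩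
        · exact hcd h1.symm
        · exact hz0d h1.symm
      · exact hz0S _ h (Sym2.mem_mk_right _ _)
      · rcases Sym2.eq_iff.mp h with ⟨_, h1⟩ | ⟨h1, _⟩
        · exact hz0Z (h1 ▸ hz)
        · exact hz0c h1.symm
    by_cases hed : e = s(d, z0)
    · -- FP blocks; SP makes the next threat
      subst hed
      obtain ⟨z1, hz1, hz1'⟩ := exists_fresh_vertex (A ∪ S) (insert c (insert d (insert z0 Z)))
      simp only [Finset.mem_insert, not_or] at hz1
      obtain ⟨hz1c, hz1d, hz10, hz1Z⟩ := hz1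
      have hz1A : ∀ e ∈ A, z1 ∉ e := fun e he => hz1' e (Finset.mem_union_left _ he)
      have hz1S : ∀ e ∈ S, z1 ∉ e := fun e he => hz1' e (Finset.mem_union_right _ he)
      refine ⟨s(c, z1), ?_, ?_, ?_, Or.inr (Or.inl ⟨insert z0 Z, z1, ?_, ?_, ?_, ?_, ?_, hz1c, hz1d,
        hz1A, hz1S, ?_, ?_⟩)⟩
      · rw [Sym2.mk_isDiag_iff]
        exact fun h => hz1c h.symm
      · rw [Finset.mem_insert, Finset.mem_union, Finset.mem_image]
        rintro (h | h | ⟨z, hz, h⟩)
        · rcases Sym2.eq_iff.mp h with ⟨h1, _⟩ | ⟨_, h1⟩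
          · exact hcd h1
          · exact hz1d h1
        · exact hz1A _ h (Sym2.mem_mk_right _ _)
        · rcases Sym2.eq_iff.mp h with ⟨h1, _⟩ | ⟨h1, _⟩
          · exact hcd h1.symm
          · exact hz1d h1.symm
      · rw [Finset.mem_insert, Finset.mem_union, Finset.mem_image]
        rintro (h | h | ⟨z, hz, h⟩)
        · rcases Sym2.eq_iff.mp h with ⟨_, h1⟩ | ⟨_, h1⟩
          · exact hz10 h1
          · exact hz1c h1
        · exact hz1S _ h (Sym2.mem_mk_right _ _)
        · rcases Sym2.eq_iff.mp h with ⟨_, h1⟩ | ⟨h1, _⟩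
          · exact hz1Z (h1 ▸ hz)
          · exact hz1c h1.symm
      · intro z hz
        rcases Finset.mem_insert.mp hz with rfl | hz
        · exact hz0A
        · exact hZA z hz
      · intro z hz
        rcases Finset.mem_insert.mp hz with rfl | hz
        · exact hz0S
        · exact hZS z hz
      · rw [Finset.mem_insert, not_or]
        exact ⟨fun h => hz0c h.symm, hcZ⟩
      · rw [Finset.mem_insert, not_or]
        exact ⟨fun h => hz0d h.symm, hdZ⟩
      · rw [Finset.mem_insert, not_or]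
        exact ⟨hz10, hz1Z⟩
      · rw [Finset.image_insert, Finset.union_insert]
      · rw [Finset.image_insert, Finset.union_insert]
    · refine ⟨s(d, z0), ?_, ?_, hd0S, Or.inl ?_⟩
      · rw [Sym2.mk_isDiag_iff]
        exact fun h => hz0d h.symm
      · rw [Finset.mem_insert, Finset.mem_union, Finset.mem_image]
        rintro (h | h | ⟨z, hz, h⟩)
        · exact hed h.symm
        · exact hz0A _ h (Sym2.mem_mk_right _ _)
        · rcases Sym2.eq_iff.mp h with ⟨_, h1⟩ | ⟨h1, _⟩
          · exact hz0Z (h1 ▸ hz)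
          · exact hz0d h1.symm
      · refine (hfork z0 hz0c hz0d hz0S).mono ?_
        intro x hx
        simp only [Finset.coe_insert, Set.mem_insert_iff, Finset.mem_coe, Finset.mem_union] at hx ⊢
        rcases hx with h | h | h
        · exact Or.inr (Or.inl h)
        · exact Or.inl h
        · exact Or.inr (Or.inr (Or.inl h))
  obtain ⟨z0, hz0, hz0'⟩ := exists_fresh_vertex (A ∪ S) {c, d}
  simp only [Finset.mem_insert, Finset.mem_singleton, not_or] at hz0
  have hz0A : ∀ e ∈ A, z0 ∉ e := fun e he => hz0' e (Finset.mem_union_left _ he)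
  have hz0S : ∀ e ∈ S, z0 ∉ e := fun e he => hz0' e (Finset.mem_union_right _ he)
  refine ⟨s(c, z0), ?_, ?_, ?_, safe_of_closed hclosed ⟨∅, z0, by simp, by simp, by simp, by simp,
    by simp, hz0.1, hz0.2, hz0A, hz0S, by simp, by simp⟩⟩
  · rw [Sym2.mk_isDiag_iff]
    exact fun h => hz0.1 h.symm
  · intro h
    exact hz0A _ h (Sym2.mem_mk_right _ _)
  · intro h
    exact hz0S _ h (Sym2.mem_mk_right _ _)

end Pool.H56.SRG
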