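import Pool.Agent.H56.SRG.Defs

namespace Pool.H56.SRG

variable {V : Type} {G : SimpleGraph V}

theorem HasCopy.mono {A B : Set (Sym2 ℕ)} (h : A ⊆ B) (hA : HasCopy G A) : HasCopy G B := by
  obtain ⟨f, hf, h2⟩ := hA
  exact ⟨f, hf, fun u v huv => h (h2 u v huv)⟩

theorem fpSet_mono (p : ℕ → Sym2 ℕ) {m n : ℕ} (h : m ≤ n) : fpSet p m ⊆ fpSet p n := by
  rintro e ⟨i, hi, rfl⟩
  exact ⟨i, by omega, rfl⟩

theorem spSet_mono (p : ℕ → Sym2 ℕ) {m n : ℕ} (h : m ≤ n) : spSet p m ⊆ spSet p n := by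
  rintro e ⟨i, hi, rfl⟩
  exact ⟨i, by omega, rfl⟩

theorem hist_succ (p : ℕ → Sym2 ℕ) (n : ℕ) : hist p (n + 1) = hist p n ++ [p n] := by
  simp [hist, List.range_succ]

theorem hist_zero (p : ℕ → Sym2 ℕ) : hist p 0 = [] := by
  simp [hist]

theorem mem_hist {p : ℕ → Sym2 ℕ} {n : ℕ} {e : Sym2 ℕ} :
    e ∈ hist p n ↔ ∃ i, i < n ∧ p i = e := by
  simp [hist]

theorem length_hist (p : ℕ → Sym2 ℕ) (n : ℕ) : (hist p n).length = n := by
  simp [hist]

/-- there is a fresh edge for every finite list -/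
theorem exists_fresh (l : List (Sym2 ℕ)) : ∃ e : Sym2 ℕ, ¬ e.IsDiag ∧ e ∉ l := by
  have hinf : Set.Infinite {e : Sym2 ℕ | ¬ e.IsDiag} := by
    have hinj : Function.Injective (fun n : ℕ => s(0, n + 1)) := by
      intro a b hab
      have := (Sym2.eq_iff.mp hab)
      omega
    refine Set.infinite_of_injective_forall_mem hinj ?_
    intro n
    simp
  obtain ⟨e, he, he2⟩ := (hinf.sdiff (l.toFinset.finite_toSet)).nonempty
  exact ⟨e, he, by simpa using he2⟩

noncomputable def fresh (l : List (Sym2 ℕ)) : Sym2 ℕ := Classical.choose (exists_fresh l)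

theorem fresh_spec (l : List (Sym2 ℕ)) : ¬ (fresh l).IsDiag ∧ fresh l ∉ l :=
  Classical.choose_spec (exists_fresh l)

theorem injective_of_not_mem_hist {p : ℕ → Sym2 ℕ} (h : ∀ n, p n ∉ hist p n) :
    Function.Injective p := by
  intro i j hij
  rcases lt_trichotomy i j with h1 | h1 | h1
  · exact absurd (mem_hist.mpr ⟨i, h1, hij⟩) (h j)
  · exact h1
  · exact absurd (mem_hist.mpr ⟨j, h1, hij.symm⟩) (h i)

/-! ### Strategy stealing -/

section Steal

/-- state of the stealing play: real history, imaginary history, extra edge -/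
noncomputable def stealStep (τ : Strategy) (t : List (Sym2 ℕ) × List (Sym2 ℕ) × Sym2 ℕ) :
    List (Sym2 ℕ) × List (Sym2 ℕ) × Sym2 ℕ :=
  let s := τ.move t.1
  let y := τ.move (t.2.1 ++ [s])
  let z := if y = t.2.2 then fresh (t.1 ++ [s]) else y
  (t.1 ++ [s, z], t.2.1 ++ [s, y], if y = t.2.2 then z else t.2.2)

noncomputable def stealSeq (τ : Strategy) : ℕ → List (Sym2 ℕ) × List (Sym2 ℕ) × Sym2 ℕ
  | 0 => ([fresh []], [], fresh [])
  | (k + 1) => stealStep τ (stealSeq τ k)

noncomputable def sS (τ : Strategy) (k : ℕ) : Sym2 ℕ := τ.move (stealSeq τ k).1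
noncomputable def yS (τ : Strategy) (k : ℕ) : Sym2 ℕ := τ.move ((stealSeq τ k).2.1 ++ [sS τ k])
noncomputable def zS (τ : Strategy) (k : ℕ) : Sym2 ℕ :=
  if yS τ k = (stealSeq τ k).2.2 then fresh ((stealSeq τ k).1 ++ [sS τ k]) else yS τ k

theorem stealSeq_succ (τ : Strategy) (k : ℕ) :
    stealSeq τ (k + 1) = ((stealSeq τ k).1 ++ [sS τ k, zS τ k], (stealSeq τ k).2.1 ++ [sS τ k, yS τ k],
      if yS τ k = (stealSeq τ k).2.2 then zS τ k else (stealSeq τ k).2.2) := rfl

noncomputable def pS (τ : Strategy) (n : ℕ) : Sym2 ℕ :=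
  if n = 0 then fresh [] else if n % 2 = 1 then sS τ (n / 2) else zS τ (n / 2 - 1)

noncomputable def qS (τ : Strategy) (n : ℕ) : Sym2 ℕ :=
  if n % 2 = 0 then sS τ (n / 2) else yS τ (n / 2)

theorem pS_odd (τ : Strategy) (k : ℕ) : pS τ (2 * k + 1) = sS τ k := by
  have h1 : (2 * k + 1) % 2 = 1 := by omega
  have h2 : (2 * k + 1) / 2 = k := by omega
  simp [pS, h1, h2]

theorem pS_even (τ : Strategy) (k : ℕ) : pS τ (2 * k + 2) = zS τ k := by
  have h1 : (2 * k + 2) % 2 = 0 := by omega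
  have h2 : (2 * k + 2) / 2 - 1 = k := by omega
  simp [pS, h1, h2]

theorem qS_even (τ : Strategy) (k : ℕ) : qS τ (2 * k) = sS τ k := by
  have h1 : (2 * k) % 2 = 0 := by omega
  have h2 : (2 * k) / 2 = k := by omega
  simp [qS, h2]

theorem qS_odd (τ : Strategy) (k : ℕ) : qS τ (2 * k + 1) = yS τ k := by
  have h1 : (2 * k + 1) % 2 = 1 := by omega
  have h2 : (2 * k + 1) / 2 = k := by omega
  simp [qS, h1, h2]

theorem hist_pS (τ : Strategy) (k : ℕ) : hist (pS τ) (2 * k + 1) = (stealSeq τ k).1 := by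
  induction k with
  | zero => simp [hist, stealSeq, pS]
  | succ k ih =>
    have : 2 * (k + 1) + 1 = (2 * k + 1) + 1 + 1 := by ring
    rw [this, hist_succ, hist_succ, ih, stealSeq_succ, pS_odd]
    have : 2 * k + 1 + 1 = 2 * k + 2 := by ring
    rw [this, pS_even]
    simp

theorem hist_qS (τ : Strategy) (k : ℕ) : hist (qS τ) (2 * k) = (stealSeq τ k).2.1 := by
  induction k with
  | zero => simp [hist, stealSeq]
  | succ k ih =>
    have : 2 * (k + 1) = (2 * k) + 1 + 1 := by ring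
    rw [this, hist_succ, hist_succ, ih, stealSeq_succ, qS_even, qS_odd]
    simp

theorem steal_inv (τ : Strategy) (k : ℕ) :
    (∀ e, e ∈ (stealSeq τ k).1 ↔ e ∈ (stealSeq τ k).2.1 ∨ e = (stealSeq τ k).2.2) := by
  induction k with
  | zero => simp [stealSeq]
  | succ k ih =>
    intro e
    rw [stealSeq_succ]
    by_cases h : yS τ k = (stealSeq τ k).2.2
    · simp only [List.mem_append, List.mem_cons, List.not_mem_nil, or_false, h, if_true, ih e]
      tauto
    · have hz : zS τ k = yS τ k := by simp [zS, h]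
      simp only [List.mem_append, List.mem_cons, List.not_mem_nil, or_false, h, if_false, ih e, hz]
      tauto

theorem zS_spec (τ : Strategy) (k : ℕ) :
    ¬ (zS τ k).IsDiag ∧ zS τ k ∉ (stealSeq τ k).1 ++ [sS τ k] := by
  by_cases h : yS τ k = (stealSeq τ k).2.2
  · have : zS τ k = fresh ((stealSeq τ k).1 ++ [sS τ k]) := by simp [zS, h]
    rw [this]
    exact fresh_spec _
  · have hz : zS τ k = yS τ k := by simp [zS, h]
    rw [hz]
    have h1 := τ.legal ((stealSeq τ k).2.1 ++ [sS τ k])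
    refine ⟨h1.1, ?_⟩
    intro hmem
    rw [List.mem_append, steal_inv] at hmem
    rcases hmem with (h2 | h2) | h2
    · exact h1.2 (List.mem_append_left _ h2)
    · exact h h2
    · exact h1.2 (List.mem_append_right _ h2)

theorem isPlay_pS (τ : Strategy) : IsPlay (pS τ) := by
  have key : ∀ n, ¬ (pS τ n).IsDiag ∧ pS τ n ∉ hist (pS τ) n := by
    intro n
    rcases Nat.even_or_odd' n with ⟨k, rfl | rfl⟩
    · rcases k with _ | k
      · have := fresh_spec []
        constructor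
        · simpa [pS] using this.1
        · simp [hist]
      · have h2 : 2 * (k + 1) = 2 * k + 1 + 1 := by ring
        rw [h2, hist_succ, hist_pS, pS_odd]
        have : 2 * k + 1 + 1 = 2 * k + 2 := by ring
        rw [this, pS_even]
        exact zS_spec τ k
    · rw [hist_pS, pS_odd]
      exact τ.legal _
  exact ⟨injective_of_not_mem_hist fun n => (key n).2, fun n => (key n).1⟩

theorem isPlay_qS (τ : Strategy) : IsPlay (qS τ) := by
  have key : ∀ n, ¬ (qS τ n).IsDiag ∧ qS τ n ∉ hist (qS τ) n := by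
    intro n
    rcases Nat.even_or_odd' n with ⟨k, rfl | rfl⟩
    · rw [hist_qS, qS_even]
      have h := τ.legal (stealSeq τ k).1
      refine ⟨h.1, fun hm => h.2 ?_⟩
      rw [steal_inv]
      exact Or.inl hm
    · rw [hist_succ, hist_qS, qS_even, qS_odd]
      exact τ.legal _
  exact ⟨injective_of_not_mem_hist fun n => (key n).2, fun n => (key n).1⟩

theorem followsSP_pS (τ : Strategy) : FollowsSP τ (pS τ) := by
  intro k
  rw [hist_pS, pS_odd]
  rfl

theorem followsSP_qS (τ : Strategy) : FollowsSP τ (qS τ) := by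
  intro k
  rw [hist_succ, hist_qS, qS_even, qS_odd]
  rfl

theorem steal_extra (τ : Strategy) (k : ℕ) : (stealSeq τ k).2.2 ∈ fpSet (pS τ) (2 * k + 1) := by
  induction k with
  | zero => exact ⟨0, by omega, by simp [pS, stealSeq]⟩
  | succ k ih =>
    rw [stealSeq_succ]
    by_cases h : yS τ k = (stealSeq τ k).2.2
    · simp only [h, if_true]
      refine ⟨k + 1, by omega, ?_⟩
      have : 2 * (k + 1) = 2 * k + 2 := by ring
      rw [this, pS_even]
    · simp only [h, if_false]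
      exact fpSet_mono _ (by omega) ih

theorem steal_sub (τ : Strategy) (k : ℕ) : spSet (qS τ) (2 * k) ⊆ fpSet (pS τ) (2 * k + 1) := by
  rintro e ⟨i, hi, rfl⟩
  rw [qS_odd]
  by_cases h : yS τ i = (stealSeq τ i).2.2
  · rw [h]
    exact fpSet_mono _ (by omega) (steal_extra τ i)
  · have hz : zS τ i = yS τ i := by simp [zS, h]
    refine ⟨i + 1, by omega, ?_⟩
    have : 2 * (i + 1) = 2 * i + 2 := by ring
    rw [this, pS_even, hz]

theorem steal_eq (τ : Strategy) (k : ℕ) : spSet (pS τ) (2 * k) ⊆ fpSet (qS τ) (2 * k) := by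
  rintro e ⟨i, hi, rfl⟩
  refine ⟨i, by omega, ?_⟩
  rw [qS_even, pS_odd]

/-- strategy stealing: the second player has no winning strategy -/
theorem no_spWinning (G : SimpleGraph V) : ¬ ∃ σ, SPWinning G σ := by
  rintro ⟨τ, hτ⟩
  obtain ⟨n, hn1, hn2⟩ := hτ (pS τ) (isPlay_pS τ) (followsSP_pS τ)
  obtain ⟨m, hm1, hm2⟩ := hτ (qS τ) (isPlay_qS τ) (followsSP_qS τ)
  obtain ⟨k, hk⟩ : ∃ k, m = 2 * k ∨ m = 2 * k + 1 := by
    rcases Nat.even_or_odd' m with ⟨k, h⟩
    exact ⟨k, h⟩
  have hm1' : HasCopy G (spSet (qS τ) (2 * k)) := by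
    refine hm1.mono ?_
    rintro e ⟨i, hi, rfl⟩
    exact ⟨i, by omega, rfl⟩
  have hm2' : ¬ HasCopy G (fpSet (qS τ) (2 * k)) := fun h => hm2 (h.mono (fpSet_mono _ (by omega)))
  have h1 : HasCopy G (fpSet (pS τ) (2 * k + 1)) := hm1'.mono (steal_sub τ k)
  have h2 : ¬ HasCopy G (spSet (pS τ) (2 * k)) := fun h => hm2' (h.mono (steal_eq τ k))
  have h3 : 2 * k + 1 ≤ n := by
    by_contra hlt
    exact h2 (hn1.mono (spSet_mono _ (by omega)))
  exact hn2 (h1.mono (fpSet_mono _ h3))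

end Steal

end Pool.H56.SRG
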