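import Pool.Agent.H56.SRG.Safe

/-!
Robust building lemmas: SP builds a prescribed graph without wasting a move.
-/

namespace Pool.H56.SRG

variable {V : Type} {G : SimpleGraph V}

/-- `S` is a copy of the graph `D` (edges on the vertices `0, …, n-1`) -/
def Copy (n : ℕ) (D S : Finset (Sym2 ℕ)) : Prop :=
  ∃ ψ : ℕ → ℕ, Set.InjOn ψ (Set.Iio n) ∧ S = D.image (Sym2.map ψ)

/-- the graph `D` lives on the vertices `0, …, n-1` and has no loops -/
def OnV (n : ℕ) (D : Finset (Sym2 ℕ)) : Prop :=
  ∀ e ∈ D, ¬ e.IsDiag ∧ ∀ x ∈ e, x < n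

/-- every position in which SP owns a copy of `D`, FP owns equally many edges and has to move,
is safe for SP. -/
def SafeAt (G : SimpleGraph V) (n : ℕ) (D : Finset (Sym2 ℕ)) : Prop :=
  ∀ F S, Copy n D S → Disjoint F S → (∀ e ∈ F, ¬ e.IsDiag) → F.card = D.card → Safe G F S

theorem exists_fresh_vertex (A : Finset (Sym2 ℕ)) (B : Finset ℕ) :
    ∃ v : ℕ, v ∉ B ∧ ∀ e ∈ A, v ∉ e := by
  classical
  obtain ⟨v, hv⟩ := Infinite.exists_notMem_finset (B ∪ A.biUnion fun e => e.toFinset)
  rw [Finset.mem_union, Finset.mem_biUnion] at hv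
  push Not at hv
  exact ⟨v, hv.1, fun e he h => hv.2 e he (Sym2.mem_toFinset.mpr h)⟩

theorem safeAt_zero (h : SafeAt G 1 ∅) : Safe G ∅ ∅ :=
  h ∅ ∅ ⟨id, Function.injective_id.injOn, by simp⟩ (by simp) (by simp) (by simp)

theorem OnV.mono {n m : ℕ} {D : Finset (Sym2 ℕ)} (h : OnV n D) (hnm : n ≤ m) : OnV m D :=
  fun e he => ⟨(h e he).1, fun x hx => lt_of_lt_of_le ((h e he).2 x hx) hnm⟩

theorem map_eq_of_agree {n : ℕ} {D : Finset (Sym2 ℕ)} (hD : OnV n D) {ψ ψ' : ℕ → ℕ}
    (h : ∀ i, i < n → ψ' i = ψ i) : D.image (Sym2.map ψ') = D.image (Sym2.map ψ) := by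
  apply Finset.image_congr
  intro e he
  induction e using Sym2.ind with
  | _ x y =>
    have h1 := (hD _ he).2 x (Sym2.mem_mk_left _ _)
    have h2 := (hD _ he).2 y (Sym2.mem_mk_right _ _)
    simp [Sym2.map_mk, h x h1, h y h2]

/-- Adding a pendant edge at a vertex `x` (the new vertex is `n`). -/
theorem safeAt_pend {n m x : ℕ} {D : Finset (Sym2 ℕ)} (hD : OnV n D) (hx : x < n)
    (hm : ∀ F : Finset (Sym2 ℕ), HasCopy G (F : Set (Sym2 ℕ)) → m ≤ F.card)
    (hcard : D.card + 1 < m)
    (h : SafeAt G (n + 1) (insert s(x, n) D)) : SafeAt G n D := by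
  classical
  rintro F S ⟨ψ, hψ, rfl⟩ hdis hFd hF
  refine safe_of_step ?_
  intro e he heF heS
  refine ⟨fun hc => ?_, ?_⟩
  · have h1 := hm _ hc
    have h2 := Finset.card_insert_le e F
    omega
  obtain ⟨v, hv1, hv2⟩ := exists_fresh_vertex (insert e F ∪ D.image (Sym2.map ψ))
    ((Finset.range n).image ψ)
  have hvne : ∀ i, i < n → ψ i ≠ v := by
    intro i hi h3
    exact hv1 (Finset.mem_image.mpr ⟨i, Finset.mem_range.mpr hi, h3⟩)
  have hsF : s(ψ x, v) ∉ insert e F := by
    intro h3
    exact hv2 _ (Finset.mem_union_left _ h3) (Sym2.mem_mk_right _ _)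
  have hsS : s(ψ x, v) ∉ D.image (Sym2.map ψ) := by
    intro h3
    exact hv2 _ (Finset.mem_union_right _ h3) (Sym2.mem_mk_right _ _)
  let ψ' : ℕ → ℕ := Function.update ψ n v
  have hψ' : ∀ i, i < n → ψ' i = ψ i := fun i hi => Function.update_of_ne (by omega) _ _
  have hψn : ψ' n = v := Function.update_self _ _ _
  refine ⟨s(ψ x, v), ?_, hsF, hsS, Or.inr ?_⟩
  · rw [Sym2.mk_isDiag_iff]
    exact hvne x hx
  · refine h _ _ ⟨ψ', ?_, ?_⟩ ?_ (Finset.forall_mem_insert _ _ _ |>.mpr ⟨he, hFd⟩) ?_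
    · intro i hi j hj hij
      simp only [Set.mem_Iio] at hi hj
      rcases Nat.lt_succ_iff_lt_or_eq.mp hi with hi' | rfl
      · rcases Nat.lt_succ_iff_lt_or_eq.mp hj with hj' | rfl
        · rw [hψ' i hi', hψ' j hj'] at hij
          exact hψ hi' hj' hij
        · rw [hψ' i hi', hψn] at hij
          exact absurd hij (hvne i hi')
      · rcases Nat.lt_succ_iff_lt_or_eq.mp hj with hj' | hj'
        · rw [hψ' j hj', hψn] at hij
          exact absurd hij.symm (hvne j hj')
        · exact hj'.symm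
    · rw [Finset.image_insert, map_eq_of_agree hD hψ', Sym2.map_mk, hψ' x hx, hψn]
    · rw [Finset.disjoint_insert_right]
      refine ⟨hsF, ?_⟩
      rw [Finset.disjoint_insert_left]
      exact ⟨heS, hdis⟩
    · rw [Finset.card_insert_of_notMem heF, hF, Finset.card_insert_of_notMem]
      intro h3
      have := (hD _ h3).2 n (Sym2.mem_mk_right _ _)
      omega

/-- The veto game at a new vertex: `N` are the neighbours picked by SP, `X` the vetoes of FP, `k`
the number of missing picks; FP moves next. -/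
def WinV (n : ℕ) (ok : Finset ℕ → Prop) : ℕ → Finset ℕ → Finset ℕ → Prop
  | 0, N, _ => ok N
  | (k + 1), N, X => ∀ x, ∃ y, y < n ∧ y ∉ N ∧ y ∉ insert x X ∧ WinV n ok k (insert y N) (insert x X)

/-- the star at the vertex `n` with leaves `N` -/
def starN (n : ℕ) (N : Finset ℕ) : Finset (Sym2 ℕ) := N.image fun y => s(n, y)

/-- the veto game in progress -/
theorem safe_of_winV {n m : ℕ} {D T : Finset (Sym2 ℕ)} (hD : OnV n D)
    (hm : ∀ F : Finset (Sym2 ℕ), HasCopy G (F : Set (Sym2 ℕ)) → m ≤ F.card)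
    (ok : Finset ℕ → Prop)
    (hok : ∀ N, (∀ y ∈ N, y < n) → ok N → ∀ S, Copy (n + 1) (D ∪ starN n N) S →
      Copy (n + 1) T S)
    (hT : SafeAt G (n + 1) T) (k : ℕ) :
    ∀ (N X : Finset ℕ), WinV n ok k N X →
    ∀ (F : Finset (Sym2 ℕ)) (ψ : ℕ → ℕ), Set.InjOn ψ (Set.Iio (n + 1)) → (∀ y ∈ N, y < n) →
      Disjoint F ((D ∪ starN n N).image (Sym2.map ψ)) → (∀ e ∈ F, ¬ e.IsDiag) →
      (∀ y, y < n → s(ψ n, ψ y) ∈ F → y ∈ X) →
      F.card = D.card + N.card → D.card + N.card + k = T.card → T.card < m →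
      Safe G F ((D ∪ starN n N).image (Sym2.map ψ)) := by
  classical
  induction k with
  | zero =>
    intro N X hN F ψ hψ hNn hdis hFd hX hcard hcT hTm
    exact hT F _ (hok N hNn hN _ ⟨ψ, hψ, rfl⟩) hdis hFd (by omega)
  | succ k ih =>
    intro N X hstep F ψ hψ hNn hdis hFd hX hcard hcT hTm
    refine safe_of_step ?_
    intro e he heF heS
    refine ⟨fun hc => ?_, ?_⟩
    · have h1 := hm _ hc
      have h2 := Finset.card_insert_le e F
      omega
    -- the veto of FP
    obtain ⟨x, hx⟩ : ∃ x, ∀ y, y < n → s(ψ n, ψ y) ∈ insert e F → y ∈ insert x X := by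
      by_cases hv : ∃ x, x < n ∧ e = s(ψ n, ψ x)
      · obtain ⟨x, hxn, rfl⟩ := hv
        refine ⟨x, fun y hy h1 => ?_⟩
        rw [Finset.mem_insert] at h1
        rcases h1 with h1 | h1
        · have h2 : ψ y = ψ x := by
            rcases Sym2.eq_iff.mp h1 with ⟨_, h3⟩ | ⟨h3, h4⟩
            · exact h3
            · exfalso
              have := hψ (x₁ := n) (x₂ := x) (by simp) (by simp; omega) h3
              omega
          have := hψ (x₁ := y) (x₂ := x) (by simp; omega) (by simp; omega) h2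
          rw [this]
          exact Finset.mem_insert_self _ _
        · exact Finset.mem_insert_of_mem (hX y hy h1)
      · refine ⟨0, fun y hy h1 => ?_⟩
        rw [Finset.mem_insert] at h1
        rcases h1 with h1 | h1
        · exact absurd ⟨y, hy, h1.symm⟩ hv
        · exact Finset.mem_insert_of_mem (hX y hy h1)
    obtain ⟨y, hyn, hyN, hyX, hwin⟩ := hstep x
    have hne : ψ n ≠ ψ y := by
      intro h1
      have := hψ (x₁ := n) (x₂ := y) (by simp) (by simp; omega) h1
      omega
    have hsF : s(ψ n, ψ y) ∉ insert e F := fun h1 => hyX (hx y hyn h1)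
    have hstar : starN n (insert y N) = insert s(n, y) (starN n N) := by
      simp [starN, Finset.image_insert]
    have hnew : s(n, y) ∉ D ∪ starN n N := by
      rw [Finset.mem_union]
      rintro (h1 | h1)
      · have := (hD _ h1).2 n (Sym2.mem_mk_left _ _)
        omega
      · simp only [starN, Finset.mem_image] at h1
        obtain ⟨z, hz, h2⟩ := h1
        rcases Sym2.eq_iff.mp h2 with ⟨_, h3⟩ | ⟨h3, h4⟩
        · exact hyN (h3 ▸ hz)
        · have := hNn z hz
          omega
    have honV : OnV (n + 1) (D ∪ starN n N) := by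
      intro e he
      rw [Finset.mem_union] at he
      rcases he with h1 | h1
      · exact (hD.mono (Nat.le_succ n)) e h1
      · simp only [starN, Finset.mem_image] at h1
        obtain ⟨z, hz, rfl⟩ := h1
        have := hNn z hz
        refine ⟨?_, ?_⟩
        · rw [Sym2.mk_isDiag_iff]; omega
        · intro x hx
          rcases Sym2.mem_iff.mp hx with rfl | rfl <;> omega
    have hsS : s(ψ n, ψ y) ∉ (D ∪ starN n N).image (Sym2.map ψ) := by
      intro h1
      rw [Finset.mem_image] at h1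
      obtain ⟨d, hd, h2⟩ := h1
      have hd2 : d = s(n, y) := by
        induction d using Sym2.ind with
        | _ p q =>
          have hp := (honV _ hd).2 p (Sym2.mem_mk_left _ _)
          have hq := (honV _ hd).2 q (Sym2.mem_mk_right _ _)
          rw [Sym2.map_mk] at h2
          rcases Sym2.eq_iff.mp h2 with ⟨h3, h4⟩ | ⟨h3, h4⟩
          · have h5 := hψ (x₁ := p) (x₂ := n) (by simpa using hp) (by simp) h3
            have h6 := hψ (x₁ := q) (x₂ := y) (by simpa using hq) (by simp; omega) h4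
            rw [h5, h6]
          · have h5 := hψ (x₁ := p) (x₂ := y) (by simpa using hp) (by simp; omega) h3
            have h6 := hψ (x₁ := q) (x₂ := n) (by simpa using hq) (by simp) h4
            rw [h5, h6, Sym2.eq_swap]
      exact hnew (hd2 ▸ hd)
    have himg : (D ∪ starN n (insert y N)).image (Sym2.map ψ) =
        insert s(ψ n, ψ y) ((D ∪ starN n N).image (Sym2.map ψ)) := by
      rw [hstar, Finset.union_insert, Finset.image_insert, Sym2.map_mk]
    refine ⟨s(ψ n, ψ y), ?_, hsF, hsS, Or.inr ?_⟩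
    · rw [Sym2.mk_isDiag_iff]
      exact hne
    · rw [← himg]
      refine ih (insert y N) (insert x X) hwin (insert e F) ψ hψ ?_ ?_
        (Finset.forall_mem_insert _ _ _ |>.mpr ⟨he, hFd⟩) ?_ ?_ ?_ hTm
      · intro z hz
        rcases Finset.mem_insert.mp hz with rfl | hz
        · exact hyn
        · exact hNn z hz
      · rw [himg, Finset.disjoint_insert_right]
        refine ⟨hsF, ?_⟩
        rw [Finset.disjoint_insert_left]
        exact ⟨heS, hdis⟩
      · exact hx
      · rw [Finset.card_insert_of_notMem heF, hcard, Finset.card_insert_of_notMem hyN]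
        ring
      · rw [Finset.card_insert_of_notMem hyN]
        omega

/-- Adding a new vertex with the veto game: SP first plays the edge to `r` from a fresh vertex. -/
theorem safeAt_close {n m r k : ℕ} {D T : Finset (Sym2 ℕ)} (hD : OnV n D) (hr : r < n)
    (hm : ∀ F : Finset (Sym2 ℕ), HasCopy G (F : Set (Sym2 ℕ)) → m ≤ F.card)
    (ok : Finset ℕ → Prop)
    (hok : ∀ N, (∀ y ∈ N, y < n) → ok N → ∀ S, Copy (n + 1) (D ∪ starN n N) S →
      Copy (n + 1) T S)
    (hT : SafeAt G (n + 1) T) (hcT : D.card + 1 + k = T.card) (hTm : T.card < m)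
    (hw : WinV n ok k {r} ∅) : SafeAt G n D := by
  classical
  rintro F S ⟨ψ, hψ, rfl⟩ hdis hFd hF
  refine safe_of_step ?_
  intro e he heF heS
  refine ⟨fun hc => ?_, ?_⟩
  · have h1 := hm _ hc
    have h2 := Finset.card_insert_le e F
    omega
  obtain ⟨v, hv1, hv2⟩ := exists_fresh_vertex (insert e F ∪ D.image (Sym2.map ψ))
    ((Finset.range n).image ψ)
  have hvne : ∀ i, i < n → ψ i ≠ v := by
    intro i hi h3
    exact hv1 (Finset.mem_image.mpr ⟨i, Finset.mem_range.mpr hi, h3⟩)
  have hsF : s(v, ψ r) ∉ insert e F := by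
    intro h3
    exact hv2 _ (Finset.mem_union_left _ h3) (Sym2.mem_mk_left _ _)
  have hsS : s(v, ψ r) ∉ D.image (Sym2.map ψ) := by
    intro h3
    exact hv2 _ (Finset.mem_union_right _ h3) (Sym2.mem_mk_left _ _)
  let ψ' : ℕ → ℕ := Function.update ψ n v
  have hψ' : ∀ i, i < n → ψ' i = ψ i := fun i hi => Function.update_of_ne (by omega) _ _
  have hψn : ψ' n = v := Function.update_self _ _ _
  have hinj : Set.InjOn ψ' (Set.Iio (n + 1)) := by
    intro i hi j hj hij
    simp only [Set.mem_Iio] at hi hj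
    rcases Nat.lt_succ_iff_lt_or_eq.mp hi with hi' | rfl
    · rcases Nat.lt_succ_iff_lt_or_eq.mp hj with hj' | rfl
      · rw [hψ' i hi', hψ' j hj'] at hij
        exact hψ hi' hj' hij
      · rw [hψ' i hi', hψn] at hij
        exact absurd hij (hvne i hi')
    · rcases Nat.lt_succ_iff_lt_or_eq.mp hj with hj' | hj'
      · rw [hψ' j hj', hψn] at hij
        exact absurd hij.symm (hvne j hj')
      · exact hj'.symm
  have himg : (D ∪ starN n {r}).image (Sym2.map ψ') = insert s(v, ψ r) (D.image (Sym2.map ψ)) := by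
    have h1 : D ∪ starN n {r} = insert s(n, r) D := by
      simp [starN]
    rw [h1, Finset.image_insert, map_eq_of_agree hD hψ', Sym2.map_mk, hψ' r hr, hψn]
  refine ⟨s(v, ψ r), ?_, hsF, hsS, Or.inr ?_⟩
  · rw [Sym2.mk_isDiag_iff]
    exact (hvne r hr).symm
  · rw [← himg]
    refine safe_of_winV hD hm ok hok hT k {r} ∅ hw (insert e F) ψ' hinj ?_ ?_
      (Finset.forall_mem_insert _ _ _ |>.mpr ⟨he, hFd⟩) ?_ ?_ ?_ hTm
    · intro y hy
      rw [Finset.mem_singleton] at hy
      omega
    · rw [himg, Finset.disjoint_insert_right]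
      refine ⟨hsF, ?_⟩
      rw [Finset.disjoint_insert_left]
      exact ⟨heS, hdis⟩
    · intro y hy h1
      rw [hψn] at h1
      exact absurd (Sym2.mem_mk_left _ _) (hv2 _ (Finset.mem_union_left _ h1))
    · rw [Finset.card_insert_of_notMem heF, hF]
      simp
    · simp only [Finset.card_singleton]
      omega

end Pool.H56.SRG
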