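import Mathlib

/-!
Strong Ramsey game for graphs on a countably infinite board: definitions, strategy stealing,
and the safe position principle.
-/

namespace Pool.H56.SRG

/-- The edge set `A` (edges of the complete graph on `ℕ`) contains a copy of `G`. -/
def HasCopy {V : Type} (G : SimpleGraph V) (A : Set (Sym2 ℕ)) : Prop :=
  ∃ f : V → ℕ, Function.Injective f ∧ ∀ u v, G.Adj u v → s(f u, f v) ∈ A

/-- A play: an injective infinite sequence of edges of the complete graph on `ℕ`.  FP claims the
edges with even index `0, 2, 4, …`, SP those with odd index `1, 3, 5, …`. -/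
def IsPlay (p : ℕ → Sym2 ℕ) : Prop := Function.Injective p ∧ ∀ n, ¬ (p n).IsDiag

/-- The edges which FP claimed during the first `n` moves of the play. -/
def fpSet (p : ℕ → Sym2 ℕ) (n : ℕ) : Set (Sym2 ℕ) := {e | ∃ i, 2 * i < n ∧ p (2 * i) = e}

/-- The edges which SP claimed during the first `n` moves of the play. -/
def spSet (p : ℕ → Sym2 ℕ) (n : ℕ) : Set (Sym2 ℕ) := {e | ∃ i, 2 * i + 1 < n ∧ p (2 * i + 1) = e}

/-- FP is the first player to claim all edges of a copy of `G`. -/
def FPWins {V : Type} (G : SimpleGraph V) (p : ℕ → Sym2 ℕ) : Prop :=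
  ∃ n, HasCopy G (fpSet p n) ∧ ¬ HasCopy G (spSet p n)

/-- SP is the first player to claim all edges of a copy of `G`. -/
def SPWins {V : Type} (G : SimpleGraph V) (p : ℕ → Sym2 ℕ) : Prop :=
  ∃ n, HasCopy G (spSet p n) ∧ ¬ HasCopy G (fpSet p n)

/-- The history of the play before move number `n`. -/
def hist (p : ℕ → Sym2 ℕ) (n : ℕ) : List (Sym2 ℕ) := (List.range n).map p

/-- A strategy: a legal move (an unclaimed edge) for every history. -/
structure Strategy where
  move : List (Sym2 ℕ) → Sym2 ℕ
  legal : ∀ h, ¬ (move h).IsDiag ∧ move h ∉ h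

/-- FP follows the strategy `σ` in the play `p`. -/
def FollowsFP (σ : Strategy) (p : ℕ → Sym2 ℕ) : Prop :=
  ∀ k, p (2 * k) = σ.move (hist p (2 * k))

/-- SP follows the strategy `σ` in the play `p`. -/
def FollowsSP (σ : Strategy) (p : ℕ → Sym2 ℕ) : Prop :=
  ∀ k, p (2 * k + 1) = σ.move (hist p (2 * k + 1))

/-- `σ` is a winning strategy for FP. -/
def FPWinning {V : Type} (G : SimpleGraph V) (σ : Strategy) : Prop :=
  ∀ p, IsPlay p → FollowsFP σ p → FPWins G p

/-- `σ` is a winning strategy for SP. -/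
def SPWinning {V : Type} (G : SimpleGraph V) (σ : Strategy) : Prop :=
  ∀ p, IsPlay p → FollowsSP σ p → SPWins G p

/-- The strong Ramsey game `R(G, ℵ₀)` is a draw: no player has a winning strategy. -/
def IsDraw {V : Type} (G : SimpleGraph V) : Prop :=
  (¬ ∃ σ, FPWinning G σ) ∧ (¬ ∃ σ, SPWinning G σ)

end Pool.H56.SRG
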