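import Pool.Agent.H56.SRG.Basic

namespace Pool.H56.SRG

variable {V : Type} {G : SimpleGraph V}

/-- `Good F S` is a family of positions (FP to move, FP owns `F`, SP owns `S`) in which SP always
has an answer staying in the family (or winning), and FP never completes a copy. -/
def Closed (G : SimpleGraph V) (Good : Finset (Sym2 ℕ) → Finset (Sym2 ℕ) → Prop) : Prop :=
  ∀ F S, Good F S → ∀ e : Sym2 ℕ, ¬ e.IsDiag → e ∉ F → e ∉ S →
    ¬ HasCopy G (↑(insert e F) : Set (Sym2 ℕ)) ∧
    ∃ s : Sym2 ℕ, ¬ s.IsDiag ∧ s ∉ insert e F ∧ s ∉ S ∧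
      (HasCopy G (↑(insert s S) : Set (Sym2 ℕ)) ∨ Good (insert e F) (insert s S))

/-- The position with FP owning `F`, SP owning `S` and FP to move is safe for SP. -/
def Safe (G : SimpleGraph V) (F S : Finset (Sym2 ℕ)) : Prop :=
  ∃ Good, Closed G Good ∧ Good F S

theorem closed_safe (G : SimpleGraph V) : Closed G (Safe G) := by
  rintro F S ⟨Good, hc, hg⟩ e he heF heS
  obtain ⟨h1, s, hs1, hs2, hs3, hs4⟩ := hc F S hg e he heF heS
  refine ⟨h1, s, hs1, hs2, hs3, ?_⟩
  rcases hs4 with h | h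
  · exact Or.inl h
  · exact Or.inr ⟨Good, hc, h⟩

/-- Coinduction: a family which is closed up to `Safe` consists of safe positions. -/
theorem safe_of_closed {P : Finset (Sym2 ℕ) → Finset (Sym2 ℕ) → Prop}
    (hP : ∀ F S, P F S → ∀ e : Sym2 ℕ, ¬ e.IsDiag → e ∉ F → e ∉ S →
      ¬ HasCopy G (↑(insert e F) : Set (Sym2 ℕ)) ∧
      ∃ s : Sym2 ℕ, ¬ s.IsDiag ∧ s ∉ insert e F ∧ s ∉ S ∧
        (HasCopy G (↑(insert s S) : Set (Sym2 ℕ)) ∨ P (insert e F) (insert s S) ∨
          Safe G (insert e F) (insert s S))) {F S : Finset (Sym2 ℕ)} (h : P F S) : Safe G F S := by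
  refine ⟨fun F S => P F S ∨ Safe G F S, ?_, Or.inl h⟩
  intro F S hFS e he heF heS
  rcases hFS with h1 | h1
  · exact hP F S h1 e he heF heS
  · obtain ⟨h2, s, hs1, hs2, hs3, hs4⟩ := closed_safe G F S h1 e he heF heS
    refine ⟨h2, s, hs1, hs2, hs3, ?_⟩
    tauto

/-- One step: to show that a position is safe it suffices to answer every move of FP. -/
theorem safe_of_step {F S : Finset (Sym2 ℕ)}
    (h : ∀ e : Sym2 ℕ, ¬ e.IsDiag → e ∉ F → e ∉ S →
      ¬ HasCopy G (↑(insert e F) : Set (Sym2 ℕ)) ∧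
      ∃ s : Sym2 ℕ, ¬ s.IsDiag ∧ s ∉ insert e F ∧ s ∉ S ∧
        (HasCopy G (↑(insert s S) : Set (Sym2 ℕ)) ∨ Safe G (insert e F) (insert s S))) :
    Safe G F S := by
  refine safe_of_closed (P := fun F' S' => F' = F ∧ S' = S) ?_ ⟨rfl, rfl⟩
  rintro F' S' ⟨rfl, rfl⟩ e he heF heS
  obtain ⟨h2, s, hs1, hs2, hs3, hs4⟩ := h e he heF heS
  exact ⟨h2, s, hs1, hs2, hs3, by tauto⟩

/-- the general construction of a play against a strategy of FP -/
theorem exists_play (σ : Strategy) (Inv : ℕ → List (Sym2 ℕ) → Prop) (h0 : Inv 0 [])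
    (hstep : ∀ k h, h.length = 2 * k → Inv k h →
      ∃ s : Sym2 ℕ, ¬ s.IsDiag ∧ s ∉ h ++ [σ.move h] ∧ Inv (k + 1) (h ++ [σ.move h, s])) :
    ∃ p, IsPlay p ∧ FollowsFP σ p ∧ ∀ k, Inv k (hist p (2 * k)) := by
  classical
  -- the sequence of histories
  obtain ⟨L, sp, hL0, hL, hInv, hsp⟩ : ∃ (L : ℕ → List (Sym2 ℕ)) (sp : ℕ → Sym2 ℕ), L 0 = [] ∧
      (∀ k, L (k + 1) = L k ++ [σ.move (L k), sp k]) ∧ (∀ k, Inv k (L k)) ∧
      (∀ k, ¬ (sp k).IsDiag ∧ sp k ∉ L k ++ [σ.move (L k)]) := by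
    let T : (k : ℕ) → {h : List (Sym2 ℕ) // h.length = 2 * k ∧ Inv k h} := fun k =>
      Nat.rec ⟨[], by simp, h0⟩ (fun k t =>
        ⟨t.1 ++ [σ.move t.1, Classical.choose (hstep k t.1 t.2.1 t.2.2)], by
          refine ⟨?_, (Classical.choose_spec (hstep k t.1 t.2.1 t.2.2)).2.2⟩
          have h3 := t.2.1
          simp only [List.length_append, List.length_cons, List.length_nil]
          omega⟩) k
    exact ⟨fun k => (T k).1, fun k => Classical.choose (hstep k (T k).1 (T k).2.1 (T k).2.2),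
      rfl, fun k => rfl, fun k => (T k).2.2, fun k =>
      ⟨(Classical.choose_spec (hstep k (T k).1 (T k).2.1 (T k).2.2)).1,
        (Classical.choose_spec (hstep k (T k).1 (T k).2.1 (T k).2.2)).2.1⟩⟩
  let p : ℕ → Sym2 ℕ := fun n => if n % 2 = 0 then σ.move (L (n / 2)) else sp (n / 2)
  have p_even : ∀ k, p (2 * k) = σ.move (L k) := by
    intro k
    have h1 : (2 * k) % 2 = 0 := by omega
    have h2 : (2 * k) / 2 = k := by omega
    simp only [p]
    rw [if_pos h1, h2]
  have p_odd : ∀ k, p (2 * k + 1) = sp k := by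
    intro k
    have h1 : ¬ (2 * k + 1) % 2 = 0 := by omega
    have h2 : (2 * k + 1) / 2 = k := by omega
    simp only [p]
    rw [if_neg h1, h2]
  have hh : ∀ k, hist p (2 * k) = L k := by
    intro k
    induction k with
    | zero => simp [hist, hL0]
    | succ k ih =>
      have : 2 * (k + 1) = (2 * k) + 1 + 1 := by ring
      rw [hL, this, hist_succ, hist_succ, ih, p_even, p_odd]
      simp
  have key : ∀ n, ¬ (p n).IsDiag ∧ p n ∉ hist p n := by
    intro n
    rcases Nat.even_or_odd' n with ⟨k, rfl | rfl⟩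
    · rw [hh, p_even]
      exact σ.legal _
    · rw [hist_succ, hh, p_even, p_odd]
      exact hsp k
  refine ⟨p, ⟨injective_of_not_mem_hist fun n => (key n).2, fun n => (key n).1⟩, ?_, ?_⟩
  · intro k
    rw [hh, p_even]
  · intro k
    rw [hh]
    exact hInv k

/-- If the empty position is safe then FP has no winning strategy. -/
theorem no_fpWinning (h : Safe G ∅ ∅) : ¬ ∃ σ, FPWinning G σ := by
  classical
  rintro ⟨σ, hσ⟩
  -- invariant
  let Inv : ℕ → List (Sym2 ℕ) → Prop := fun k h =>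
    ∃ F S : Finset (Sym2 ℕ), (∀ e, e ∈ F ↔ ∃ i, i < k ∧ h[2 * i]? = some e) ∧
      (∀ e, e ∈ S ↔ ∃ i, i < k ∧ h[2 * i + 1]? = some e) ∧
      ((Safe G F S) ∨ HasCopy G (S : Set (Sym2 ℕ)))
  obtain ⟨p, hp, hf, hI⟩ := exists_play σ Inv ⟨∅, ∅, by simp, by simp, Or.inl h⟩ (by
    rintro k h hlen ⟨F, S, hF, hS, hgood⟩
    have hleg := σ.legal h
    -- sets after the move
    have hget : ∀ (s : Sym2 ℕ) i, i < 2 * k → (h ++ [σ.move h, s])[i]? = h[i]? := by
      intro s i hi
      rw [List.getElem?_append_left (by omega)]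
    have hget1 : ∀ (s : Sym2 ℕ), (h ++ [σ.move h, s])[2 * k]? = some (σ.move h) := by
      intro s
      rw [List.getElem?_append_right (by omega), hlen]
      simp
    have hget2 : ∀ (s : Sym2 ℕ), (h ++ [σ.move h, s])[2 * k + 1]? = some s := by
      intro s
      rw [List.getElem?_append_right (by omega), hlen]
      simp
    have hF' : ∀ s e, e ∈ insert (σ.move h) F ↔ ∃ i, i < k + 1 ∧ (h ++ [σ.move h, s])[2 * i]? = some e := by
      intro s e
      rw [Finset.mem_insert, hF]
      constructor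
      · rintro (rfl | ⟨i, hi, h2⟩)
        · exact ⟨k, by omega, hget1 s⟩
        · exact ⟨i, by omega, by rw [hget s _ (by omega)]; exact h2⟩
      · rintro ⟨i, hi, h2⟩
        rcases Nat.lt_succ_iff_lt_or_eq.mp hi with h3 | rfl
        · rw [hget s _ (by omega)] at h2
          exact Or.inr ⟨i, h3, h2⟩
        · rw [hget1] at h2
          exact Or.inl (Option.some.inj h2).symm
    have hS' : ∀ s e, e ∈ insert s S ↔ ∃ i, i < k + 1 ∧ (h ++ [σ.move h, s])[2 * i + 1]? = some e := by
      intro s e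
      rw [Finset.mem_insert, hS]
      constructor
      · rintro (rfl | ⟨i, hi, h2⟩)
        · exact ⟨k, by omega, hget2 _⟩
        · exact ⟨i, by omega, by rw [hget s _ (by omega)]; exact h2⟩
      · rintro ⟨i, hi, h2⟩
        rcases Nat.lt_succ_iff_lt_or_eq.mp hi with h3 | rfl
        · rw [hget s _ (by omega)] at h2
          exact Or.inr ⟨i, h3, h2⟩
        · rw [hget2] at h2
          exact Or.inl (Option.some.inj h2).symm
    have hmemF : ∀ e, e ∈ F → e ∈ h := by
      intro e he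
      obtain ⟨i, _, h2⟩ := (hF e).mp he
      exact List.mem_of_getElem? h2
    have hmemS : ∀ e, e ∈ S → e ∈ h := by
      intro e he
      obtain ⟨i, _, h2⟩ := (hS e).mp he
      exact List.mem_of_getElem? h2
    have hmem : ∀ e, e ∈ h → e ∈ F ∨ e ∈ S := by
      intro e he
      obtain ⟨i, hi, h2⟩ := List.mem_iff_getElem.mp he
      have h3 : h[i]? = some e := by
        rw [List.getElem?_eq_getElem hi, h2]
      rcases Nat.even_or_odd' i with ⟨j, rfl | rfl⟩
      · exact Or.inl ((hF e).mpr ⟨j, by omega, h3⟩)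
      · exact Or.inr ((hS e).mpr ⟨j, by omega, h3⟩)
    rcases hgood with hg | hg
    · obtain ⟨h1, s, hs1, hs2, hs3, hs4⟩ := closed_safe G F S hg (σ.move h) hleg.1
        (fun hm => hleg.2 (hmemF _ hm)) (fun hm => hleg.2 (hmemS _ hm))
      refine ⟨s, hs1, ?_, insert (σ.move h) F, insert s S, hF' s, hS' s, ?_⟩
      · intro hm
        rw [List.mem_append] at hm
        rcases hm with hm | hm
        · rcases hmem _ hm with h4 | h4
          · exact hs2 (Finset.mem_insert_of_mem h4)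
          · exact hs3 h4
        · rw [List.mem_singleton] at hm
          exact hs2 (hm ▸ Finset.mem_insert_self _ _)
      · rcases hs4 with h5 | h5
        · exact Or.inr h5
        · exact Or.inl h5
    · obtain ⟨s, hs1, hs2⟩ := exists_fresh (h ++ [σ.move h])
      refine ⟨s, hs1, hs2, insert (σ.move h) F, insert s S, hF' s, hS' s, Or.inr ?_⟩
      exact hg.mono (by intro e he; exact Finset.mem_insert_of_mem he))
  obtain ⟨n, hn1, hn2⟩ := hσ p hp hf
  obtain ⟨k, hk⟩ : ∃ k, n = 2 * k ∨ n = 2 * k + 1 := Nat.even_or_odd' n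
  obtain ⟨F, S, hF, hS, hgood⟩ := hI k
  have hgetp : ∀ i, i < 2 * k → (hist p (2 * k))[i]? = some (p i) := by
    intro i hi
    simp [hist, hi]
  have hSset : (S : Set (Sym2 ℕ)) = spSet p (2 * k) := by
    ext e
    simp only [Finset.mem_coe, hS, spSet, Set.mem_ofPred_eq]
    constructor
    · rintro ⟨i, hi, h2⟩
      rw [hgetp _ (by omega)] at h2
      exact ⟨i, by omega, Option.some.inj h2⟩
    · rintro ⟨i, hi, h2⟩
      exact ⟨i, by omega, by rw [hgetp _ (by omega), h2]⟩
  have hFset : (F : Set (Sym2 ℕ)) = fpSet p (2 * k) := by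
    ext e
    simp only [Finset.mem_coe, hF, fpSet, Set.mem_ofPred_eq]
    constructor
    · rintro ⟨i, hi, h2⟩
      rw [hgetp _ (by omega)] at h2
      exact ⟨i, by omega, Option.some.inj h2⟩
    · rintro ⟨i, hi, h2⟩
      exact ⟨i, by omega, by rw [hgetp _ (by omega), h2]⟩
  rcases hgood with hg | hg
  · have hmem : ∀ e, e ∈ F ∨ e ∈ S → e ∈ hist p (2 * k) := by
      rintro e (he | he)
      · obtain ⟨i, _, h2⟩ := (hF e).mp he
        exact List.mem_of_getElem? h2
      · obtain ⟨i, _, h2⟩ := (hS e).mp he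
        exact List.mem_of_getElem? h2
    have hleg : ¬ (p (2 * k)).IsDiag ∧ p (2 * k) ∉ hist p (2 * k) := by
      rw [hf k]
      exact σ.legal _
    have h1 := (closed_safe G F S hg (p (2 * k)) hleg.1
      (fun hm => hleg.2 (hmem _ (Or.inl hm))) (fun hm => hleg.2 (hmem _ (Or.inr hm)))).1
    refine h1 (hn1.mono ?_)
    rintro e ⟨i, hi, rfl⟩
    rw [Finset.mem_coe, Finset.mem_insert]
    rcases Nat.lt_or_ge i k with h4 | h4
    · right
      have : p (2 * i) ∈ fpSet p (2 * k) := ⟨i, by omega, rfl⟩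
      rw [← hFset] at this
      exact this
    · left
      have : i = k := by omega
      rw [this]
  · rw [hSset] at hg
    exact hn2 (hg.mono (spSet_mono _ (by omega)))

/-- The draw theorem: it suffices that the empty position is safe. -/
theorem isDraw_of_safe (h : Safe G ∅ ∅) : IsDraw G := ⟨no_fpWinning h, no_spWinning G⟩

end Pool.H56.SRG
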