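import Pool.Agent.H56.SRG.Attack

/-!
The two pendants theorem: a graph-agnostic reduction of the draw to a game which only involves the
edges of FP.
-/

namespace Pool.H56.SRG

variable {V : Type} {G : SimpleGraph V}

/-- The edge set `A` contains a copy of `G - t`, where `t` is a vertex with exactly the two
neighbours `u`, `v`, placed at `p` and `q`. -/
def VPair (G : SimpleGraph V) (A : Set (Sym2 ℕ)) (p q : ℕ) : Prop :=
  ∃ t u v : V, u ≠ v ∧ (∀ w, G.Adj t w ↔ w = u ∨ w = v) ∧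
    ∃ f : V → ℕ, Set.InjOn f {t}ᶜ ∧
      (∀ w w', w ≠ t → w' ≠ t → G.Adj w w' → s(f w, f w') ∈ A) ∧ f u = p ∧ f v = q

theorem ValidPair.vpair {A : Finset (Sym2 ℕ)} {A' : Set (Sym2 ℕ)} (hA : (↑A : Set (Sym2 ℕ)) ⊆ A')
    {p q : ℕ} (h : ValidPair G A p q) : VPair G A' p q := by
  obtain ⟨t, u, v, huv, ht, f, hf, hE, hp, hq⟩ := h
  exact ⟨t, u, v, huv, ht, f, hf, fun w w' h1 h2 h3 => hA (hE w w' h1 h2 h3), hp, hq⟩

theorem VPair.mono {A A' : Set (Sym2 ℕ)} (hA : A ⊆ A')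
    {p q : ℕ} (h : VPair G A p q) : VPair G A' p q := by
  obtain ⟨t, u, v, huv, ht, f, hf, hE, hp, hq⟩ := h
  exact ⟨t, u, v, huv, ht, f, hf, fun w w' h1 h2 h3 => hA (hE w w' h1 h2 h3), hp, hq⟩

/-- `A` contains at most one valid pair. -/
def OnePair (G : SimpleGraph V) (A : Set (Sym2 ℕ)) : Prop :=
  ∀ p q p' q', VPair G A p q → VPair G A p' q' → (p' = p ∧ q' = q) ∨ (p' = q ∧ q' = p)

/-- FP (owning `A`) cannot complete a copy with one more edge outside the blocked edges `B`. -/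
def NoComp (G : SimpleGraph V) (A B : Set (Sym2 ℕ)) : Prop :=
  ∀ g : Sym2 ℕ, ¬ g.IsDiag → g ∉ A → g ∉ B → ¬ HasCopy G (insert g A)

/-- Closed families of the second phase. -/
def Cl2 (G : SimpleGraph V) (P : Set (Sym2 ℕ) → Set (Sym2 ℕ) → Prop) : Prop :=
  ∀ A B, P A B → ¬ HasCopy G A ∧ ∀ m : Sym2 ℕ, ¬ m.IsDiag → m ∉ A → m ∉ B →
    ¬ HasCopy G (insert m A) ∧ OnePair G (insert m A) ∧
      (NoComp G (insert m A) B ∨ ∃ g : Sym2 ℕ, g ∉ insert m A ∧ P (insert m A) (insert g B))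

/-- The second phase is safe for SP. -/
def W2 (G : SimpleGraph V) (A B : Set (Sym2 ℕ)) : Prop := ∃ P, Cl2 G P ∧ P A B

/-- Closed families of the first phase. -/
def Cl1 (G : SimpleGraph V) (P : Set (Sym2 ℕ) → Set (Sym2 ℕ) → Prop) : Prop :=
  ∀ A B, P A B → ¬ HasCopy G A ∧ ∀ m : Sym2 ℕ, ¬ m.IsDiag → m ∉ A → m ∉ B →
    ¬ HasCopy G (insert m A) ∧
      (W2 G (insert m A) B ∨ ∃ g : Sym2 ℕ, g ∉ insert m A ∧ P (insert m A) (insert g B))

/-- The first phase is safe for SP. -/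
def W1 (G : SimpleGraph V) (A B : Set (Sym2 ℕ)) : Prop := ∃ P, Cl1 G P ∧ P A B

theorem cl2_W2 (G : SimpleGraph V) : Cl2 G (W2 G) := by
  rintro A B ⟨P, hc, hP⟩
  refine ⟨(hc A B hP).1, fun m hm hmA hmB => ?_⟩
  obtain ⟨h1, h2, h3⟩ := (hc A B hP).2 m hm hmA hmB
  refine ⟨h1, h2, h3.imp id ?_⟩
  rintro ⟨g, hg, h⟩
  exact ⟨g, hg, P, hc, h⟩

theorem cl1_W1 (G : SimpleGraph V) : Cl1 G (W1 G) := by
  rintro A B ⟨P, hc, hP⟩
  refine ⟨(hc A B hP).1, fun m hm hmA hmB => ?_⟩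
  obtain ⟨h1, h3⟩ := (hc A B hP).2 m hm hmA hmB
  refine ⟨h1, h3.imp id ?_⟩
  rintro ⟨g, hg, h⟩
  exact ⟨g, hg, P, hc, h⟩

/-- a free move for SP -/
theorem exists_free (A S : Finset (Sym2 ℕ)) : ∃ s : Sym2 ℕ, ¬ s.IsDiag ∧ s ∉ A ∧ s ∉ S := by
  classical
  obtain ⟨g, hg1, hg2⟩ := exists_fresh ((A ∪ S).toList)
  rw [Finset.mem_toList, Finset.mem_union] at hg2
  push Not at hg2
  exact ⟨g, hg1, hg2.1, hg2.2⟩

theorem Fork.mono {S S' : Finset (Sym2 ℕ)} {c d : ℕ} (h : Fork G S c d) (hS : S ⊆ S') :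
    Fork G S' c d := by
  intro z h1 h2 h3
  refine (h z h1 h2 fun e he => h3 e (hS he)).mono ?_
  intro e he
  simp only [Finset.coe_insert, Set.mem_insert_iff, Finset.mem_coe] at he ⊢
  rcases he with h | h | h
  · exact Or.inl h
  · exact Or.inr (Or.inl h)
  · exact Or.inr (Or.inr (hS h))

/-- SP blocks `g` (or makes any move if `g` is already blocked). -/
theorem exists_block {A S : Finset (Sym2 ℕ)} {g : Sym2 ℕ} (hgd : ¬ g.IsDiag) (hgA : g ∉ A) :
    ∃ s : Sym2 ℕ, ¬ s.IsDiag ∧ s ∉ A ∧ s ∉ S ∧ g ∈ insert s S := by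
  classical
  by_cases hgS : g ∈ S
  · obtain ⟨s, h1, h2, h3⟩ := exists_free A S
    exact ⟨s, h1, h2, h3, Finset.mem_insert_of_mem hgS⟩
  · exact ⟨g, hgd, hgA, hgS, Finset.mem_insert_self _ _⟩

/-- SP blocks `g` (or makes any move if `g` is already blocked or a loop). -/
theorem exists_block' {A S : Finset (Sym2 ℕ)} {g : Sym2 ℕ} (hgA : g ∉ A) :
    ∃ s : Sym2 ℕ, ¬ s.IsDiag ∧ s ∉ A ∧ s ∉ S ∧ (g.IsDiag ∨ g ∈ insert s S) ∧ 
      (s = g ∨ g ∈ S ∨ g.IsDiag) := by
  classical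
  by_cases hgS : g ∈ S
  · obtain ⟨s, h1, h2, h3⟩ := exists_free A S
    exact ⟨s, h1, h2, h3, Or.inr (Finset.mem_insert_of_mem hgS), Or.inr (Or.inl hgS)⟩
  · by_cases hgd : g.IsDiag
    · obtain ⟨s, h1, h2, h3⟩ := exists_free A S
      exact ⟨s, h1, h2, h3, Or.inl hgd, Or.inr (Or.inr hgd)⟩
    · exact ⟨g, hgd, hgA, hgS, Or.inr (Finset.mem_insert_self _ _), Or.inl rfl⟩

/-- Phase two: SP owns a copy of `G - t` attached to `c`, `d`. -/
theorem safe_of_W2 (hG : Nice G) {A S : Finset (Sym2 ℕ)} {A' B : Set (Sym2 ℕ)} {c d : ℕ}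
    (hcd : c ≠ d) (hA : (↑A : Set (Sym2 ℕ)) ⊆ A')
    (hB : ∀ g ∈ B, ¬ g.IsDiag → g ∈ S)
    (hdis : Disjoint A S) (hfork : Fork G S c d) (hW : W2 G A' B) : Safe G A S := by
  classical
  let P : Finset (Sym2 ℕ) → Finset (Sym2 ℕ) → Prop := fun F S =>
    ∃ A' B : Set (Sym2 ℕ), (↑F : Set (Sym2 ℕ)) ⊆ A' ∧ (∀ g ∈ B, ¬ g.IsDiag → g ∈ S) ∧
      Disjoint F S ∧ Fork G S c d ∧ W2 G A' B
  refine safe_of_closed (P := P) ?_ ⟨A', B, hA, hB, hdis, hfork, hW⟩
  rintro F S ⟨A', B, hA, hB, hdis, hfork, hW⟩ e he heF heS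
  obtain ⟨hno, hstep⟩ := cl2_W2 G A' B hW
  have hdis1 : Disjoint (insert e F) S := Finset.disjoint_insert_left.mpr ⟨heS, hdis⟩
  by_cases heA : e ∈ A'
  · have hsub : (↑(insert e F) : Set (Sym2 ℕ)) ⊆ A' := by
      rw [Finset.coe_insert]
      exact Set.insert_subset heA hA
    refine ⟨fun h => hno (h.mono hsub), ?_⟩
    obtain ⟨s, hs1, hs2, hs3⟩ := exists_free (insert e F) S
    refine ⟨s, hs1, hs2, hs3, Or.inr (Or.inl ⟨A', B, hsub, ?_, ?_, ?_, hW⟩)⟩
    · exact fun g hg hgd => Finset.mem_insert_of_mem (hB g hg hgd)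
    · exact Finset.disjoint_insert_right.mpr ⟨hs2, hdis1⟩
    · exact hfork.mono (Finset.subset_insert _ _)
  · have heB : e ∉ B := fun h => heS (hB e h he)
    obtain ⟨h1, h2, h3⟩ := hstep e he heA heB
    have hsub : (↑(insert e F) : Set (Sym2 ℕ)) ⊆ insert e A' := by
      rw [Finset.coe_insert]
      exact Set.insert_subset_insert hA
    refine ⟨fun h => h1 (h.mono hsub), ?_⟩
    rcases h3 with h3 | ⟨g, hgA, hg⟩
    · -- the attack
      have hNW : NoWin G (insert e F) S := by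
        intro g hgd hgF hgS hc
        by_cases hgA : g ∈ insert e A'
        · refine h1 (hc.mono ?_)
          rw [Finset.coe_insert]
          exact Set.insert_subset hgA hsub
        · refine h3 g hgd hgA (fun h => hgS (hB g h hgd)) (hc.mono ?_)
          rw [Finset.coe_insert]
          exact Set.insert_subset_insert hsub
      by_cases hv : ∃ q, q ≠ c ∧ ValidPair G (insert e F) d q
      · obtain ⟨q, hqc, hq⟩ := hv
        have hpair : ∀ q', ValidPair G (insert e F) c q' → q' = d := by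
          intro q' hq'
          rcases h2 d q c q' (hq.vpair hsub) (hq'.vpair hsub) with ⟨h, _⟩ | ⟨h, _⟩
          · exact absurd h hcd
          · exact absurd h.symm hqc
        obtain ⟨s, hs1, hs2, hs3, hs4⟩ := attack hG hcd.symm hdis1 hfork.symm hNW hpair
        exact ⟨s, hs1, hs2, hs3, Or.inr (Or.inr hs4)⟩
      · push Not at hv
        have hpair : ∀ q', ValidPair G (insert e F) d q' → q' = c := by
          intro q' hq'
          by_contra h
          exact hv q' h hq'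
        obtain ⟨s, hs1, hs2, hs3, hs4⟩ := attack hG hcd hdis1 hfork hNW hpair
        exact ⟨s, hs1, hs2, hs3, Or.inr (Or.inr hs4)⟩
    · have hgF : g ∉ insert e F := fun h => hgA (hsub (Finset.mem_coe.mpr h))
      obtain ⟨s, hs1, hs2, hs3, hs4, _⟩ := exists_block' (S := S) hgF
      refine ⟨s, hs1, hs2, hs3, Or.inr (Or.inl ⟨insert e A', insert g B, hsub, ?_, ?_, ?_, hg⟩)⟩
      · intro g' hg' hgd'
        rcases hg' with rfl | hg'
        · rcases hs4 with h | h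
          · exact absurd h hgd'
          · exact h
        · exact Finset.mem_insert_of_mem (hB g' hg' hgd')
      · exact Finset.disjoint_insert_right.mpr ⟨hs2, hdis1⟩
      · exact hfork.mono (Finset.subset_insert _ _)

/-- Phase one: SP owns the core `C0` and has a pending pre-threat `x' z`. -/
theorem safe_of_W1 (hG : Nice G) {C0 A S : Finset (Sym2 ℕ)} {A' B : Set (Sym2 ℕ)} {x x' c d z : ℕ}
    (hcd : c ≠ d) (hxx' : x ≠ x')
    (hcore : ∀ (S' : Finset (Sym2 ℕ)) (z : ℕ), C0 ⊆ S' → s(x, z) ∈ S' → s(x', z) ∈ S' →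
      z ≠ x → z ≠ x' → (∀ e ∈ C0, z ∉ e) → Fork G S' c d)
    (hA : (↑A : Set (Sym2 ℕ)) ⊆ A') (hB : ∀ g ∈ B, ¬ g.IsDiag → g ∈ S)
    (hdis : Disjoint A S) (hC0 : C0 ⊆ S)
    (hstar : ∃ T : Finset ℕ, ∀ z, z ∉ T → s(x, z) ∈ A')
    (hzx : z ≠ x) (hzx' : z ≠ x') (hzC : ∀ e ∈ C0, z ∉ e)
    (hpend : s(x', z) ∈ S) (hfree : s(x, z) ∉ A) (hfree' : s(x, z) ∉ S) (hzA : s(x, z) ∈ A')
    (hW : W1 G A' B) : Safe G A S := by
  classical
  let P : Finset (Sym2 ℕ) → Finset (Sym2 ℕ) → Prop := fun F S =>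
    ∃ (A' B : Set (Sym2 ℕ)) (z : ℕ), (↑F : Set (Sym2 ℕ)) ⊆ A' ∧ (∀ g ∈ B, ¬ g.IsDiag → g ∈ S) ∧
      Disjoint F S ∧ C0 ⊆ S ∧ (∃ T : Finset ℕ, ∀ z, z ∉ T → s(x, z) ∈ A') ∧
      z ≠ x ∧ z ≠ x' ∧ (∀ e ∈ C0, z ∉ e) ∧ s(x', z) ∈ S ∧ s(x, z) ∉ F ∧ s(x, z) ∉ S ∧
      s(x, z) ∈ A' ∧ W1 G A' B
  refine safe_of_closed (P := P) ?_ ⟨A', B, z, hA, hB, hdis, hC0, hstar, hzx, hzx', hzC, hpend,
    hfree, hfree', hzA, hW⟩
  clear hzA hfree' hfree hpend hzC hzx' hzx hstar hC0 hdis hB hA hW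
  rintro F S ⟨A', B, z, hA, hB, hdis, hC0, hstar, hzx, hzx', hzC, hpend, hfree, hfree', hzA, hW⟩ e
    he heF heS
  obtain ⟨hno, hstep⟩ := cl1_W1 G A' B hW
  have hdis1 : Disjoint (insert e F) S := Finset.disjoint_insert_left.mpr ⟨heS, hdis⟩
  by_cases heA : e ∈ A'
  · have hsub : (↑(insert e F) : Set (Sym2 ℕ)) ⊆ A' := by
      rw [Finset.coe_insert]
      exact Set.insert_subset heA hA
    refine ⟨fun h => hno (h.mono hsub), ?_⟩
    by_cases hez : e = s(x, z)
    · -- a veto: new pre-threat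
      obtain ⟨T, hT⟩ := hstar
      obtain ⟨v, hv1, hv2⟩ := exists_fresh_vertex (insert e F ∪ S) (insert x (insert x' T))
      simp only [Finset.mem_insert, not_or] at hv1
      obtain ⟨hvx, hvx', hvT⟩ := hv1
      have hvF : ∀ e' ∈ insert e F, v ∉ e' := fun e' he' => hv2 e' (Finset.mem_union_left _ he')
      have hvS : ∀ e' ∈ S, v ∉ e' := fun e' he' => hv2 e' (Finset.mem_union_right _ he')
      have h1 : s(x', v) ∉ insert e F := fun h => hvF _ h (Sym2.mem_mk_right _ _)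
      have h2 : s(x', v) ∉ S := fun h => hvS _ h (Sym2.mem_mk_right _ _)
      have h3 : s(x, v) ∉ insert e F := fun h => hvF _ h (Sym2.mem_mk_right _ _)
      have h4 : s(x, v) ∉ insert s(x', v) S := by
        rw [Finset.mem_insert, not_or]
        refine ⟨fun h => ?_, fun h => hvS _ h (Sym2.mem_mk_right _ _)⟩
        rcases Sym2.eq_iff.mp h with ⟨h5, _⟩ | ⟨h5, _⟩
        · exact hxx' h5
        · exact hvx h5.symm
      refine ⟨s(x', v), ?_, h1, h2, Or.inr (Or.inl ⟨A', B, v, hsub, ?_, ?_, ?_, ⟨T, hT⟩, hvx, hvx',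
        ?_, Finset.mem_insert_self _ _, h3, h4, hT v hvT, hW⟩)⟩
      · rw [Sym2.mk_isDiag_iff]
        exact fun h => hvx' h.symm
      · exact fun g hg hgd => Finset.mem_insert_of_mem (hB g hg hgd)
      · exact Finset.disjoint_insert_right.mpr ⟨h1, hdis1⟩
      · exact hC0.trans (Finset.subset_insert _ _)
      · exact fun e' he' => hvS e' (hC0 he')
    · -- a wasted move inside the virtual star: SP makes any move different from `x z`
      obtain ⟨s, hs1, hs2, hs3⟩ := exists_free (insert s(x, z) (insert e F)) S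
      rw [Finset.mem_insert, not_or] at hs2
      refine ⟨s, hs1, hs2.2, hs3, Or.inr (Or.inl ⟨A', B, z, hsub, ?_, ?_, ?_, hstar, hzx, hzx',
        hzC, Finset.mem_insert_of_mem hpend, ?_, ?_, hzA, hW⟩)⟩
      · exact fun g hg hgd => Finset.mem_insert_of_mem (hB g hg hgd)
      · exact Finset.disjoint_insert_right.mpr ⟨hs2.2, hdis1⟩
      · exact hC0.trans (Finset.subset_insert _ _)
      · rw [Finset.mem_insert, not_or]
        exact ⟨fun h => hez h.symm, hfree⟩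
      · rw [Finset.mem_insert, not_or]
        exact ⟨fun h => hs2.1 h.symm, hfree'⟩
  · have heB : e ∉ B := fun h => heS (hB e h he)
    obtain ⟨h1, h3⟩ := hstep e he heA heB
    have hsub : (↑(insert e F) : Set (Sym2 ℕ)) ⊆ insert e A' := by
      rw [Finset.coe_insert]
      exact Set.insert_subset_insert hA
    refine ⟨fun h => h1 (h.mono hsub), ?_⟩
    have hez : e ≠ s(x, z) := fun h => heA (h ▸ hzA)
    rcases h3 with h3 | ⟨g, hgA, hg⟩
    · -- SP completes the satellite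
      have h4 : s(x, z) ∉ insert e F := by
        rw [Finset.mem_insert, not_or]
        exact ⟨fun h => hez h.symm, hfree⟩
      refine ⟨s(x, z), ?_, h4, hfree', Or.inr (Or.inr ?_)⟩
      · rw [Sym2.mk_isDiag_iff]
        exact fun h => hzx h.symm
      · refine safe_of_W2 hG hcd hsub ?_ ?_ ?_ h3
        · exact fun g hg hgd => Finset.mem_insert_of_mem (hB g hg hgd)
        · exact Finset.disjoint_insert_right.mpr ⟨h4, hdis1⟩
        · exact hcore _ z (hC0.trans (Finset.subset_insert _ _)) (Finset.mem_insert_self _ _)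
            (Finset.mem_insert_of_mem hpend) hzx hzx' hzC
    · have hgF : g ∉ insert e F := fun h => hgA (hsub (Finset.mem_coe.mpr h))
      have hgz : g ≠ s(x, z) := fun h => hgA (h ▸ Set.mem_insert_of_mem _ hzA)
      -- SP blocks `g`, keeping `x z` free
      obtain ⟨s, hs1, hs2, hs3, hs4, hsz⟩ : ∃ s : Sym2 ℕ, ¬ s.IsDiag ∧ s ∉ insert e F ∧ s ∉ S ∧
          (g.IsDiag ∨ g ∈ insert s S) ∧ s ≠ s(x, z) := by
        obtain ⟨s, hs1, hs2, hs3, hs4, hs5⟩ :=
          exists_block' (A := insert s(x, z) (insert e F)) (S := S) (g := g) (by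
            rw [Finset.mem_insert, not_or]
            exact ⟨hgz, hgF⟩)
        rw [Finset.mem_insert, not_or] at hs2
        exact ⟨s, hs1, hs2.2, hs3, hs4, hs2.1⟩
      refine ⟨s, hs1, hs2, hs3, Or.inr (Or.inl ⟨insert e A', insert g B, z, hsub, ?_, ?_, ?_, ?_,
        hzx, hzx', hzC, Finset.mem_insert_of_mem hpend, ?_, ?_, Set.mem_insert_of_mem _ hzA, hg⟩)⟩
      · intro g' hg' hgd'
        rcases hg' with rfl | hg'
        · rcases hs4 with h | h
          · exact absurd h hgd'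
          · exact h
        · exact Finset.mem_insert_of_mem (hB g' hg' hgd')
      · exact Finset.disjoint_insert_right.mpr ⟨hs2, hdis1⟩
      · exact hC0.trans (Finset.subset_insert _ _)
      · obtain ⟨T, hT⟩ := hstar
        exact ⟨T, fun z hz => Set.mem_insert_of_mem _ (hT z hz)⟩
      · rw [Finset.mem_insert, not_or]
        exact ⟨fun h => hez h.symm, hfree⟩
      · rw [Finset.mem_insert, not_or]
        exact ⟨fun h => hsz h.symm, hfree'⟩

/-- the virtual star: FP is given all edges from `x` to the vertices outside his graph -/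
def withStar (F : Finset (Sym2 ℕ)) (x : ℕ) : Set (Sym2 ℕ) :=
  (↑F : Set (Sym2 ℕ)) ∪ {e | ∃ z, z ≠ x ∧ (∀ f ∈ F, z ∉ f) ∧ e = s(x, z)}

/-- The core `C` (on `0, …, n-1`) with the two satellites attached to `a, b` and `c, d` contains
a copy of `G`. -/
def IsTP (G : SimpleGraph V) (n : ℕ) (C : Finset (Sym2 ℕ)) (a b c d : ℕ) : Prop :=
  HasCopy G (↑(C ∪ {s(a, n), s(b, n), s(c, n + 1), s(d, n + 1)}) : Set (Sym2 ℕ))

/-- The two pendants theorem. -/
theorem safeAt_core (hG : Nice G) {n : ℕ} {C : Finset (Sym2 ℕ)} (hC : OnV n C) {a b c d : ℕ}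
    (ha : a < n) (hb : b < n) (hc : c < n) (hd : d < n) (hab : a ≠ b) (hcd : c ≠ d)
    (hTP : IsTP G n C a b c d)
    (hcov : ∀ i, i < n → ∃ e ∈ C, i ∈ e)
    (hm : ∀ F : Finset (Sym2 ℕ), HasCopy G (F : Set (Sym2 ℕ)) → C.card + 1 < F.card)
    (H : ∀ (F : Finset (Sym2 ℕ)) (ψ : ℕ → ℕ), Set.InjOn ψ (Set.Iio n) → (∀ e ∈ F, ¬ e.IsDiag) →
      F.card = C.card + 1 → Disjoint F (C.image (Sym2.map ψ)) →
      ∃ x, (x = a ∨ x = b ∨ x = c ∨ x = d) ∧ W1 G (withStar F (ψ x)) ∅) : SafeAt G n C := by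
  classical
  rintro F S ⟨ψ, hψ, rfl⟩ hdis hFd hF
  refine safe_of_step ?_
  intro e he heF heS
  refine ⟨fun hc => ?_, ?_⟩
  · have h1 := hm _ hc
    rw [Finset.card_insert_of_notMem heF] at h1
    omega
  have hdis1 : Disjoint (insert e F) (C.image (Sym2.map ψ)) :=
    Finset.disjoint_insert_left.mpr ⟨heS, hdis⟩
  obtain ⟨x, hx, hW⟩ := H (insert e F) ψ hψ (Finset.forall_mem_insert _ _ _ |>.mpr ⟨he, hFd⟩)
    (by rw [Finset.card_insert_of_notMem heF, hF]) hdis1
  -- the core property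
  have hne : ∀ i j, i < n → j < n → i ≠ j → ψ i ≠ ψ j := by
    intro i j hi hj hij h
    exact hij (hψ (by simpa using hi) (by simpa using hj) h)
  have hcore : ∀ (S' : Finset (Sym2 ℕ)) (z w : ℕ), C.image (Sym2.map ψ) ⊆ S' →
      s(ψ a, z) ∈ S' → s(ψ b, z) ∈ S' → s(ψ c, w) ∈ S' → s(ψ d, w) ∈ S' → z ≠ w →
      (∀ e ∈ C.image (Sym2.map ψ), z ∉ e) → (∀ e ∈ C.image (Sym2.map ψ), w ∉ e) →
      HasCopy G (↑S' : Set (Sym2 ℕ)) := by
    intro S' z w hCS h1 h2 h3 h4 hzw hz hw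
    obtain ⟨f, hf, hE⟩ := hTP
    have hzψ : ∀ i, i < n → ψ i ≠ z := by
      intro i hi h
      obtain ⟨e, he, hie⟩ := hcov i hi
      refine hz (Sym2.map ψ e) (Finset.mem_image_of_mem _ he) ?_
      rw [Sym2.mem_map]
      exact ⟨i, hie, h⟩
    have hwψ : ∀ i, i < n → ψ i ≠ w := by
      intro i hi h
      obtain ⟨e, he, hie⟩ := hcov i hi
      refine hw (Sym2.map ψ e) (Finset.mem_image_of_mem _ he) ?_
      rw [Sym2.mem_map]
      exact ⟨i, hie, h⟩
    let ψ' : ℕ → ℕ := fun i => if i < n then ψ i else if i = n then z else if i = n + 1 then w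
      else 0
    have hψ'1 : ∀ i, i < n → ψ' i = ψ i := fun i hi => by simp only [ψ', if_pos hi]
    have hψ'n : ψ' n = z := by simp only [ψ', lt_irrefl, if_false, if_true]
    have hψ'n1 : ψ' (n + 1) = w := by
      have h5 : ¬ (n + 1 < n) := by omega
      have h6 : ¬ (n + 1 = n) := by omega
      simp only [ψ', if_neg h5, if_neg h6, if_true]
    have hinj : ∀ i j, i < n + 2 → j < n + 2 → ψ' i = ψ' j → i = j := by
      intro i j hi hj hij
      rcases Nat.lt_or_ge i n with hi1 | hi1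
      · rcases Nat.lt_or_ge j n with hj1 | hj1
        · rw [hψ'1 i hi1, hψ'1 j hj1] at hij
          exact hψ (by simpa using hi1) (by simpa using hj1) hij
        · rcases (by omega : j = n ∨ j = n + 1) with rfl | rfl
          · rw [hψ'1 i hi1, hψ'n] at hij
            exact absurd hij (hzψ i hi1)
          · rw [hψ'1 i hi1, hψ'n1] at hij
            exact absurd hij (hwψ i hi1)
      · rcases (by omega : i = n ∨ i = n + 1) with rfl | rfl
        · rcases Nat.lt_or_ge j i with hj1 | hj1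
          · rw [hψ'1 j hj1, hψ'n] at hij
            exact absurd hij.symm (hzψ j hj1)
          · rcases (by omega : j = i ∨ j = i + 1) with rfl | rfl
            · rfl
            · rw [hψ'n, hψ'n1] at hij
              exact absurd hij hzw
        · rcases Nat.lt_or_ge j n with hj1 | hj1
          · rw [hψ'1 j hj1, hψ'n1] at hij
            exact absurd hij.symm (hwψ j hj1)
          · rcases (by omega : j = n ∨ j = n + 1) with rfl | rfl
            · rw [hψ'n, hψ'n1] at hij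
              exact absurd hij.symm hzw
            · rfl
    -- all edges of the two pendants graph live on `0, …, n+1`
    have hlt : ∀ e ∈ C ∪ {s(a, n), s(b, n), s(c, n + 1), s(d, n + 1)}, ∀ i ∈ e, i < n + 2 := by
      intro e he i hi
      simp only [Finset.mem_union, Finset.mem_insert, Finset.mem_singleton] at he
      rcases he with he | rfl | rfl | rfl | rfl
      · have := (hC e he).2 i hi
        omega
      all_goals
        rcases Sym2.mem_iff.mp hi with rfl | rfl <;> omega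
    have hin : ∀ e ∈ C ∪ {s(a, n), s(b, n), s(c, n + 1), s(d, n + 1)}, Sym2.map ψ' e ∈ S' := by
      intro e he
      simp only [Finset.mem_union, Finset.mem_insert, Finset.mem_singleton] at he
      rcases he with he | rfl | rfl | rfl | rfl
      · apply hCS
        rw [← map_eq_of_agree hC hψ'1]
        exact Finset.mem_image_of_mem _ he
      · rw [Sym2.map_mk, hψ'1 a ha, hψ'n]; exact h1
      · rw [Sym2.map_mk, hψ'1 b hb, hψ'n]; exact h2
      · rw [Sym2.map_mk, hψ'1 c hc, hψ'n1]; exact h3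
      · rw [Sym2.map_mk, hψ'1 d hd, hψ'n1]; exact h4
    refine ⟨ψ' ∘ f, ?_, ?_⟩
    · intro u v huv
      obtain ⟨u1, -, -, hu1, -⟩ := hG.two u
      obtain ⟨v1, -, -, hv1, -⟩ := hG.two v
      have hu2 : f u < n + 2 := hlt _ (hE u u1 hu1) _ (Sym2.mem_mk_left _ _)
      have hv2 : f v < n + 2 := hlt _ (hE v v1 hv1) _ (Sym2.mem_mk_left _ _)
      exact hf (hinj _ _ hu2 hv2 huv)
    · intro u v huv
      have h5 := hin _ (hE u v huv)
      rw [Sym2.map_mk] at h5
      exact h5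
  have hcovψ : ∀ i, i < n → ∃ e ∈ C.image (Sym2.map ψ), ψ i ∈ e := by
    intro i hi
    obtain ⟨e, he, hie⟩ := hcov i hi
    refine ⟨Sym2.map ψ e, Finset.mem_image_of_mem _ he, ?_⟩
    rw [Sym2.mem_map]
    exact ⟨i, hie, rfl⟩
  -- the fork property for both choices of the first satellite
  have hfork1 : ∀ (S' : Finset (Sym2 ℕ)) (z : ℕ), C.image (Sym2.map ψ) ⊆ S' → s(ψ a, z) ∈ S' →
      s(ψ b, z) ∈ S' → (∀ e ∈ C.image (Sym2.map ψ), z ∉ e) → Fork G S' (ψ c) (ψ d) := by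
    intro S' z hCS h1 h2 hz w hw1 hw2 hw3
    have hzw : z ≠ w := by
      rintro rfl
      exact hw3 _ h1 (Sym2.mem_mk_right _ _)
    have hsub : S' ⊆ insert s(ψ c, w) (insert s(ψ d, w) S') := by
      intro e he
      exact Finset.mem_insert_of_mem (Finset.mem_insert_of_mem he)
    refine hcore _ z w (hCS.trans hsub) (hsub h1) (hsub h2) (Finset.mem_insert_self _ _)
      (Finset.mem_insert_of_mem (Finset.mem_insert_self _ _)) hzw hz ?_
    intro e he
    exact hw3 e (hCS he)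
  have hfork2 : ∀ (S' : Finset (Sym2 ℕ)) (z : ℕ), C.image (Sym2.map ψ) ⊆ S' → s(ψ c, z) ∈ S' →
      s(ψ d, z) ∈ S' → (∀ e ∈ C.image (Sym2.map ψ), z ∉ e) → Fork G S' (ψ a) (ψ b) := by
    intro S' z hCS h1 h2 hz w hw1 hw2 hw3
    have hzw : w ≠ z := by
      rintro rfl
      exact hw3 _ h1 (Sym2.mem_mk_right _ _)
    have hsub : S' ⊆ insert s(ψ a, w) (insert s(ψ b, w) S') := by
      intro e he
      exact Finset.mem_insert_of_mem (Finset.mem_insert_of_mem he)
    refine hcore _ w z (hCS.trans hsub) (Finset.mem_insert_self _ _)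
      (Finset.mem_insert_of_mem (Finset.mem_insert_self _ _)) (hsub h1) (hsub h2) hzw ?_ hz
    intro e he
    exact hw3 e (hCS he)
  -- general conclusion
  have main : ∀ x x' c' d' : ℕ, x ≠ x' → c' ≠ d' →
      (∀ (S' : Finset (Sym2 ℕ)) (z : ℕ), C.image (Sym2.map ψ) ⊆ S' → s(x, z) ∈ S' →
        s(x', z) ∈ S' → z ≠ x → z ≠ x' → (∀ e ∈ C.image (Sym2.map ψ), z ∉ e) →
        Fork G S' c' d') →
      W1 G (withStar (insert e F) x) ∅ →
      ∃ s : Sym2 ℕ, ¬ s.IsDiag ∧ s ∉ insert e F ∧ s ∉ C.image (Sym2.map ψ) ∧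
        (HasCopy G (↑(insert s (C.image (Sym2.map ψ))) : Set (Sym2 ℕ)) ∨
          Safe G (insert e F) (insert s (C.image (Sym2.map ψ)))) := by
    intro x x' c' d' hxx' hcd' hcore' hW'
    obtain ⟨v, hv1, hv2⟩ := exists_fresh_vertex (insert e F ∪ C.image (Sym2.map ψ)) {x, x'}
    simp only [Finset.mem_insert, Finset.mem_singleton, not_or] at hv1
    obtain ⟨hvx, hvx'⟩ := hv1
    have hvF : ∀ e' ∈ insert e F, v ∉ e' := fun e' he' => hv2 e' (Finset.mem_union_left _ he')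
    have hvS : ∀ e' ∈ C.image (Sym2.map ψ), v ∉ e' :=
      fun e' he' => hv2 e' (Finset.mem_union_right _ he')
    have h1 : s(x', v) ∉ insert e F := fun h => hvF _ h (Sym2.mem_mk_right _ _)
    have h2 : s(x', v) ∉ C.image (Sym2.map ψ) := fun h => hvS _ h (Sym2.mem_mk_right _ _)
    have h3 : s(x, v) ∉ insert e F := fun h => hvF _ h (Sym2.mem_mk_right _ _)
    have h4 : s(x, v) ∉ insert s(x', v) (C.image (Sym2.map ψ)) := by
      rw [Finset.mem_insert, not_or]
      refine ⟨fun h => ?_, fun h => hvS _ h (Sym2.mem_mk_right _ _)⟩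
      rcases Sym2.eq_iff.mp h with ⟨h5, _⟩ | ⟨h5, _⟩
      · exact hxx' h5
      · exact hvx h5.symm
    refine ⟨s(x', v), ?_, h1, h2, Or.inr ?_⟩
    · rw [Sym2.mk_isDiag_iff]
      exact fun h => hvx' h.symm
    refine safe_of_W1 (C0 := C.image (Sym2.map ψ)) (A' := withStar (insert e F) x) (B := ∅) hG
      (x := x) (x' := x') (c := c') (d := d') (z := v) hcd' hxx' hcore' ?_ ?_ ?_ ?_ ?_ hvx hvx'
      hvS (Finset.mem_insert_self _ _) h3 h4 ?_ hW'
    · exact Set.subset_union_left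
    · intro g hg
      exact absurd hg (Set.notMem_empty _)
    · exact Finset.disjoint_insert_right.mpr ⟨h1, hdis1⟩
    · exact Finset.subset_insert _ _
    · refine ⟨insert x ((insert e F).biUnion fun e => e.toFinset), fun z hz => ?_⟩
      rw [Finset.mem_insert, not_or, Finset.mem_biUnion] at hz
      refine Or.inr ⟨z, hz.1, fun f hf hzf => hz.2 ⟨f, hf, ?_⟩, rfl⟩
      exact Sym2.mem_toFinset.mpr hzf
    · exact Or.inr ⟨v, hvx, hvF, rfl⟩
  rcases hx with rfl | rfl | rfl | rfl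
  · exact main _ (ψ b) (ψ c) (ψ d) (hne _ _ ha hb hab) (hne _ _ hc hd hcd)
      (fun S' z h1 h2 h3 _ _ h4 => hfork1 S' z h1 h2 h3 h4) hW
  · exact main _ (ψ a) (ψ c) (ψ d) (hne _ _ hb ha hab.symm) (hne _ _ hc hd hcd)
      (fun S' z h1 h2 h3 _ _ h4 => hfork1 S' z h1 h3 h2 h4) hW
  · exact main _ (ψ d) (ψ a) (ψ b) (hne _ _ hc hd hcd) (hne _ _ ha hb hab)
      (fun S' z h1 h2 h3 _ _ h4 => hfork2 S' z h1 h2 h3 h4) hW
  · exact main _ (ψ c) (ψ a) (ψ b) (hne _ _ hd hc hcd.symm) (hne _ _ ha hb hab)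
      (fun S' z h1 h2 h3 _ _ h4 => hfork2 S' z h1 h3 h2 h4) hW

end Pool.H56.SRG
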